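import Pool.Agent.Helper43.MEI.KBox
import Pool.Agent.Helper93.MEI.Wr

/-!
# Project MEI (M2): the strip function for further caps

`IsC S c0 c1` with nearly optimal constants for the caps `S` used in the tables of the
`w`-term.
-/

set_option autoImplicit false
set_option maxRecDepth 1000000

namespace Helper92.IsC
open Helper43 Helper43.KBox Helper43.KBox.KT Helper93.MEI

theorem c00152A_ok : checkK 77 72 [4]
    O
    [[(870770000000000000000, [0]), (-2021579000000000000000, [1]), (991883561326200000000,
    [2]), (787915029844630000000, [3]), (-627258288552777113907, [4])]] = true := by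
  decide +kernel

theorem c00152A {r : ℝ}
    (hr0 : 0 ≤ r) (hr1 : r ≤ 5449 / 5000) :
    0 ≤ (-711507 / 8000000) * r ^ 4 + (487 / 4000) * r ^ 3 + (167031 / 1000000) * r ^ 2 +
    (-371 / 1000) * r + (87077 / 500000) := by
  obtain ⟨m, hm, h⟩ := checkK_sound c00152A_ok
    [(r - (0)) * (5000 / 5449)]
    (by
      intro a ha
      simp only [List.mem_cons, List.not_mem_nil, or_false] at ha
      subst ha
      all_goals constructor
      all_goals linarith)
  simp only [List.mem_cons, List.not_mem_nil, or_false] at hm
  subst hm
  · apply nonneg_of_mul_nonneg_right (a := (5000000000000000000000 : ℝ)) _ (by norm_num)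
    refine le_of_le_of_eq h ?_
    simp only [PBox.evm, PBox.mon, PBox.xs]
    push_cast
    ring

theorem c00152B0_ok : checkK 79 74 [4]
    O
    [[(13932320000000000000000, [0]), (-7319088000000000000000, [1]), (51119413567200000000,
    [2]), (36515578244760000000, [3]), (-1644490933815696147, [4])]] = true := by
  decide +kernel

theorem c00152B0 {r : ℝ}
    (hr0 : 0 ≤ r) (hr1 : r ≤ 1233 / 10000) :
    0 ≤ (-711507 / 8000000) * r ^ 4 + (487 / 2000) * r ^ 3 + (42031 / 1000000) * r ^ 2 + (-371
    / 500) * r + (87077 / 500000) := by
  obtain ⟨m, hm, h⟩ := checkK_sound c00152B0_ok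
    [(r - (0)) * (10000 / 1233)]
    (by
      intro a ha
      simp only [List.mem_cons, List.not_mem_nil, or_false] at ha
      subst ha
      all_goals constructor
      all_goals linarith)
  simp only [List.mem_cons, List.not_mem_nil, or_false] at hm
  subst hm
  · apply nonneg_of_mul_nonneg_right (a := (80000000000000000000000 : ℝ)) _ (by norm_num)
    refine le_of_le_of_eq h ?_
    simp only [PBox.evm, PBox.mon, PBox.xs]
    push_cast
    ring

theorem c00152C0_ok : checkK 79 74 [4]
    O
    [[(13932320000000000000000, [0]), (-10978632000000000000000, [1]), (203148313567200000000,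
    [2]), (54773367367140000000, [3]), (-1644490933815696147, [4])]] = true := by
  decide +kernel

theorem c00152C0 {r : ℝ}
    (hr0 : 0 ≤ r) (hr1 : r ≤ 1233 / 10000) :
    0 ≤ (-711507 / 8000000) * r ^ 4 + (1461 / 4000) * r ^ 3 + (167031 / 1000000) * r ^ 2 +
    (-1113 / 1000) * r + (87077 / 500000) := by
  obtain ⟨m, hm, h⟩ := checkK_sound c00152C0_ok
    [(r - (0)) * (10000 / 1233)]
    (by
      intro a ha
      simp only [List.mem_cons, List.not_mem_nil, or_false] at ha
      subst ha
      all_goals constructor
      all_goals linarith)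
  simp only [List.mem_cons, List.not_mem_nil, or_false] at hm
  subst hm
  · apply nonneg_of_mul_nonneg_right (a := (80000000000000000000000 : ℝ)) _ (by norm_num)
    refine le_of_le_of_eq h ?_
    simp only [PBox.evm, PBox.mon, PBox.xs]
    push_cast
    ring

theorem c00152B_ok : checkK 109 102 [6]
    O
    [[(10149543912302348109311232333, [0]), (176034255620866868152249648886, [1]),
    (439433382613351267210590933755, [2]), (-1964127902651780680982870504620, [3]),
    (1549260794308123844381966834995, [4]), (378619147916571001134642028886, [5]),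
    (-580670133278702418196494661083, [6])]] = true := by
  decide +kernel

theorem c00152B {r : ℝ}
    (hr0 : 1231 / 10000 ≤ r) (hr1 : r ≤ 5449 / 5000) :
    0 ≤ (-711507 / 8000000) * r ^ 6 + (487 / 4000) * r ^ 5 + (167031 / 1000000) * r ^ 4 +
    (-1845747 / 5000000) * r ^ 3 + (88977 / 500000) * r ^ 2 + (-7049 / 1250000) * r + (-1083 /
    12500000) := by
  obtain ⟨m, hm, h⟩ := checkK_sound c00152B_ok
    [(r - (1231 / 10000)) * (10000 / 9667)]
    (by
      intro a ha
      simp only [List.mem_cons, List.not_mem_nil, or_false] at ha
      subst ha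
      all_goals constructor
      all_goals linarith)
  simp only [List.mem_cons, List.not_mem_nil, or_false] at hm
  subst hm
  · apply nonneg_of_mul_nonneg_right (a := (8000000000000000000000000000000 : ℝ)) _ (by norm_num)
    refine le_of_le_of_eq h ?_
    simp only [PBox.evm, PBox.mon, PBox.xs]
    push_cast
    ring

theorem c00152C_ok : checkK 106 99 [6]
    O
    [[(693329501322032129901604619, [0]), (20044115947276371564607092698, [1]),
    (67564542655247090972941561965, [2]), (-278679056881479608368981500660, [3]),
    (221322970615446263483138119285, [4]), (54088449702367285876377432698, [5]),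
    (-82952876182671774028070665869, [6])]] = true := by
  decide +kernel

theorem c00152C {r : ℝ}
    (hr0 : 1231 / 10000 ≤ r) (hr1 : r ≤ 5449 / 5000) :
    0 ≤ (-711507 / 8000000) * r ^ 6 + (487 / 4000) * r ^ 5 + (167031 / 1000000) * r ^ 4 +
    (-918247 / 2500000) * r ^ 3 + (90877 / 500000) * r ^ 2 + (-7049 / 625000) * r + (-361 /
    3125000) := by
  obtain ⟨m, hm, h⟩ := checkK_sound c00152C_ok
    [(r - (1231 / 10000)) * (10000 / 9667)]
    (by
      intro a ha
      simp only [List.mem_cons, List.not_mem_nil, or_false] at ha
      subst ha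
      all_goals constructor
      all_goals linarith)
  simp only [List.mem_cons, List.not_mem_nil, or_false] at hm
  subst hm
  · apply nonneg_of_mul_nonneg_right (a := (8000000000000000000000000000000 / 7 : ℝ)) _ (by norm_num)
    refine le_of_le_of_eq h ?_
    simp only [PBox.evm, PBox.mon, PBox.xs]
    push_cast
    ring

theorem c00226A_ok : checkK 77 72 [4]
    O
    [[(915170000000000000000, [0]), (-2010681000000000000000, [1]), (935089466933400000000,
    [2]), (778207657813690000000, [3]), (-611897444007686779683, [4])]] = true := by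
  decide +kernel

theorem c00226A {r : ℝ}
    (hr0 : 0 ≤ r) (hr1 : r ≤ 5449 / 5000) :
    0 ≤ (-694083 / 8000000) * r ^ 4 + (481 / 4000) * r ^ 3 + (157467 / 1000000) * r ^ 2 +
    (-369 / 1000) * r + (91517 / 500000) := by
  obtain ⟨m, hm, h⟩ := checkK_sound c00226A_ok
    [(r - (0)) * (5000 / 5449)]
    (by
      intro a ha
      simp only [List.mem_cons, List.not_mem_nil, or_false] at ha
      subst ha
      all_goals constructor
      all_goals linarith)
  simp only [List.mem_cons, List.not_mem_nil, or_false] at hm
  subst hm
  · apply nonneg_of_mul_nonneg_right (a := (5000000000000000000000 : ℝ)) _ (by norm_num)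
    refine le_of_le_of_eq h ?_
    simp only [PBox.evm, PBox.mon, PBox.xs]
    push_cast
    ring

theorem c00226B0_ok : checkK 59 54 [4]
    O
    [[(13964385986328125, [0]), (-8468261718750000, [1]), (56030939843750, [2]),
    (62423578750000, [3]), (-3386903627523, [4])]] = true := by
  decide +kernel

theorem c00226B0 {r : ℝ}
    (hr0 : 0 ≤ r) (hr1 : r ≤ 94 / 625) :
    0 ≤ (-694083 / 8000000) * r ^ 4 + (481 / 2000) * r ^ 3 + (32467 / 1000000) * r ^ 2 + (-369
    / 500) * r + (91517 / 500000) := by
  obtain ⟨m, hm, h⟩ := checkK_sound c00226B0_ok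
    [(r - (0)) * (625 / 94)]
    (by
      intro a ha
      simp only [List.mem_cons, List.not_mem_nil, or_false] at ha
      subst ha
      all_goals constructor
      all_goals linarith)
  simp only [List.mem_cons, List.not_mem_nil, or_false] at hm
  subst hm
  · apply nonneg_of_mul_nonneg_right (a := (76293945312500000 : ℝ)) _ (by norm_num)
    refine le_of_le_of_eq h ?_
    simp only [PBox.evm, PBox.mon, PBox.xs]
    push_cast
    ring

theorem c00226C0_ok : checkK 59 54 [4]
    O
    [[(13964385986328125, [0]), (-12702392578125000, [1]), (271753596093750, [2]),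
    (93635368125000, [3]), (-3386903627523, [4])]] = true := by
  decide +kernel

theorem c00226C0 {r : ℝ}
    (hr0 : 0 ≤ r) (hr1 : r ≤ 94 / 625) :
    0 ≤ (-694083 / 8000000) * r ^ 4 + (1443 / 4000) * r ^ 3 + (157467 / 1000000) * r ^ 2 +
    (-1107 / 1000) * r + (91517 / 500000) := by
  obtain ⟨m, hm, h⟩ := checkK_sound c00226C0_ok
    [(r - (0)) * (625 / 94)]
    (by
      intro a ha
      simp only [List.mem_cons, List.not_mem_nil, or_false] at ha
      subst ha
      all_goals constructor
      all_goals linarith)
  simp only [List.mem_cons, List.not_mem_nil, or_false] at hm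
  subst hm
  · apply nonneg_of_mul_nonneg_right (a := (76293945312500000 : ℝ)) _ (by norm_num)
    refine le_of_le_of_eq h ?_
    simp only [PBox.evm, PBox.mon, PBox.xs]
    push_cast
    ring

theorem c00226B_ok : checkK 101 94 [6]
    O
    [[(69157974385662977138956639, [0]), (1016011962346447389356391132, [1]),
    (1779096464527450233746090340, [2]), (-8655652615798312074617430240, [3]),
    (7093216667181343231937529360, [4]), (1283479900850780608593189312, [5]),
    (-2487529428878212284232240704, [6])]] = true := by
  decide +kernel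

theorem c00226B {r : ℝ}
    (hr0 : 751 / 5000 ≤ r) (hr1 : r ≤ 5449 / 5000) :
    0 ≤ (-694083 / 8000000) * r ^ 6 + (481 / 4000) * r ^ 5 + (157467 / 1000000) * r ^ 4 +
    (-7325647 / 20000000) * r ^ 3 + (47171 / 250000) * r ^ 2 + (-41697 / 5000000) * r +
    (-38307 / 200000000) := by
  obtain ⟨m, hm, h⟩ := checkK_sound c00226B_ok
    [(r - (751 / 5000)) * (2500 / 2349)]
    (by
      intro a ha
      simp only [List.mem_cons, List.not_mem_nil, or_false] at ha
      subst ha
      all_goals constructor
      all_goals linarith)
  simp only [List.mem_cons, List.not_mem_nil, or_false] at hm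
  subst hm
  · apply nonneg_of_mul_nonneg_right (a := (125000000000000000000000000000 / 3 : ℝ)) _ (by norm_num)
    refine le_of_le_of_eq h ?_
    simp only [PBox.evm, PBox.mon, PBox.xs]
    push_cast
    ring

theorem c00226C_ok : checkK 102 95 [6]
    O
    [[(60005192152544081416869917, [0]), (2289519225674301268069173396, [1]),
    (6095939918993852501238271020, [2]), (-25685163315522217423852290720, [3]),
    (21279650001544029695812588080, [4]), (3850439702552341825779567936, [5]),
    (-7462588286634636852696722112, [6])]] = true := by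
  decide +kernel

theorem c00226C {r : ℝ}
    (hr0 : 751 / 5000 ≤ r) (hr1 : r ≤ 5449 / 5000) :
    0 ≤ (-694083 / 8000000) * r ^ 6 + (481 / 4000) * r ^ 5 + (157467 / 1000000) * r ^ 4 +
    (-3635647 / 10000000) * r ^ 3 + (97167 / 500000) * r ^ 2 + (-41697 / 2500000) * r +
    (-12769 / 50000000) := by
  obtain ⟨m, hm, h⟩ := checkK_sound c00226C_ok
    [(r - (751 / 5000)) * (2500 / 2349)]
    (by
      intro a ha
      simp only [List.mem_cons, List.not_mem_nil, or_false] at ha
      subst ha
      all_goals constructor
      all_goals linarith)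
  simp only [List.mem_cons, List.not_mem_nil, or_false] at hm
  subst hm
  · apply nonneg_of_mul_nonneg_right (a := (125000000000000000000000000000 : ℝ)) _ (by norm_num)
    refine le_of_le_of_eq h ?_
    simp only [PBox.evm, PBox.mon, PBox.xs]
    push_cast
    ring

theorem c00302A_ok : checkK 67 62 [4]
    O
    [[(1526117000000000000, [0]), (-3201832400000000000, [1]), (1409341533066000000, [2]),
    (1229600457252400000, [3]), (-954763237048486683, [4])]] = true := by
  decide +kernel

theorem c00302A {r : ℝ}
    (hr0 : 0 ≤ r) (hr1 : r ≤ 5449 / 5000) :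
    0 ≤ (-1083 / 12800) * r ^ 4 + (19 / 160) * r ^ 3 + (23733 / 160000) * r ^ 2 + (-1469 /
    4000) * r + (1526117 / 8000000) := by
  obtain ⟨m, hm, h⟩ := checkK_sound c00302A_ok
    [(r - (0)) * (5000 / 5449)]
    (by
      intro a ha
      simp only [List.mem_cons, List.not_mem_nil, or_false] at ha
      subst ha
      all_goals constructor
      all_goals linarith)
  simp only [List.mem_cons, List.not_mem_nil, or_false] at hm
  subst hm
  · apply nonneg_of_mul_nonneg_right (a := (8000000000000000000 : ℝ)) _ (by norm_num)
    refine le_of_le_of_eq h ?_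
    simp only [PBox.evm, PBox.mon, PBox.xs]
    push_cast
    ring

theorem c00302B0_ok : checkK 66 61 [4]
    O
    [[(1526117000000000000, [0]), (-1021248800000000000, [1]), (5638032026000000, [2]),
    (9974770616800000, [3]), (-617600391202443, [4])]] = true := by
  decide +kernel

theorem c00302B0 {r : ℝ}
    (hr0 : 0 ≤ r) (hr1 : r ≤ 869 / 5000) :
    0 ≤ (-1083 / 12800) * r ^ 4 + (19 / 80) * r ^ 3 + (3733 / 160000) * r ^ 2 + (-1469 / 2000)
    * r + (1526117 / 8000000) := by
  obtain ⟨m, hm, h⟩ := checkK_sound c00302B0_ok
    [(r - (0)) * (5000 / 869)]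
    (by
      intro a ha
      simp only [List.mem_cons, List.not_mem_nil, or_false] at ha
      subst ha
      all_goals constructor
      all_goals linarith)
  simp only [List.mem_cons, List.not_mem_nil, or_false] at hm
  subst hm
  · apply nonneg_of_mul_nonneg_right (a := (8000000000000000000 : ℝ)) _ (by norm_num)
    refine le_of_le_of_eq h ?_
    simp only [PBox.evm, PBox.mon, PBox.xs]
    push_cast
    ring

theorem c00302C0_ok : checkK 66 61 [4]
    O
    [[(1526117000000000000, [0]), (-1531873200000000000, [1]), (35844472026000000, [2]),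
    (14962155925200000, [3]), (-617600391202443, [4])]] = true := by
  decide +kernel

theorem c00302C0 {r : ℝ}
    (hr0 : 0 ≤ r) (hr1 : r ≤ 869 / 5000) :
    0 ≤ (-1083 / 12800) * r ^ 4 + (57 / 160) * r ^ 3 + (23733 / 160000) * r ^ 2 + (-4407 /
    4000) * r + (1526117 / 8000000) := by
  obtain ⟨m, hm, h⟩ := checkK_sound c00302C0_ok
    [(r - (0)) * (5000 / 869)]
    (by
      intro a ha
      simp only [List.mem_cons, List.not_mem_nil, or_false] at ha
      subst ha
      all_goals constructor
      all_goals linarith)
  simp only [List.mem_cons, List.not_mem_nil, or_false] at hm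
  subst hm
  · apply nonneg_of_mul_nonneg_right (a := (8000000000000000000 : ℝ)) _ (by norm_num)
    refine le_of_le_of_eq h ?_
    simp only [PBox.evm, PBox.mon, PBox.xs]
    push_cast
    ring

theorem c00302B_ok : checkK 91 84 [6]
    O
    [[(130514391424995984142336, [0]), (1737609645504415512348672, [1]),
    (2283235546963529895010560, [2]), (-11983685799116641221008640, [3]),
    (10013178421501388596077840, [4]), (1317885788499223210712712, [5]),
    (-3336329630764287472966641, [6])]] = true := by
  decide +kernel

theorem c00302B {r : ℝ}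
    (hr0 : 217 / 1250 ≤ r) (hr1 : r ≤ 5449 / 5000) :
    0 ≤ (-1083 / 12800) * r ^ 6 + (19 / 160) * r ^ 5 + (23733 / 160000) * r ^ 4 + (-290931 /
    800000) * r ^ 3 + (1586517 / 8000000) * r ^ 2 + (-221819 / 20000000) * r + (-68403 /
    200000000) := by
  obtain ⟨m, hm, h⟩ := checkK_sound c00302B_ok
    [(r - (217 / 1250)) * (5000 / 4581)]
    (by
      intro a ha
      simp only [List.mem_cons, List.not_mem_nil, or_false] at ha
      subst ha
      all_goals constructor
      all_goals linarith)
  simp only [List.mem_cons, List.not_mem_nil, or_false] at hm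
  subst hm
  · apply nonneg_of_mul_nonneg_right (a := (200000000000000000000000000 / 3 : ℝ)) _ (by norm_num)
    refine le_of_le_of_eq h ?_
    simp only [PBox.evm, PBox.mon, PBox.xs]
    push_cast
    ring

theorem c00302C_ok : checkK 93 86 [6]
    O
    [[(32923691394603952427008, [0]), (3720274272924862537046016, [1]),
    (8430795573333461685031680, [2]), (-35399435599698465663025920, [3]),
    (30039535264504165788233520, [4]), (3953657365497669632138136, [5]),
    (-10008988892292862418899923, [6])]] = true := by
  decide +kernel

theorem c00302C {r : ℝ}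
    (hr0 : 217 / 1250 ≤ r) (hr1 : r ≤ 5449 / 5000) :
    0 ≤ (-1083 / 12800) * r ^ 6 + (19 / 160) * r ^ 5 + (23733 / 160000) * r ^ 4 + (-144031 /
    400000) * r ^ 3 + (1646917 / 8000000) * r ^ 2 + (-221819 / 10000000) * r + (-22801 /
    50000000) := by
  obtain ⟨m, hm, h⟩ := checkK_sound c00302C_ok
    [(r - (217 / 1250)) * (5000 / 4581)]
    (by
      intro a ha
      simp only [List.mem_cons, List.not_mem_nil, or_false] at ha
      subst ha
      all_goals constructor
      all_goals linarith)
  simp only [List.mem_cons, List.not_mem_nil, or_false] at hm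
  subst hm
  · apply nonneg_of_mul_nonneg_right (a := (200000000000000000000000000 : ℝ)) _ (by norm_num)
    refine le_of_le_of_eq h ?_
    simp only [PBox.evm, PBox.mon, PBox.xs]
    push_cast
    ring

theorem c00404A_ok : checkK 77 72 [4]
    O
    [[(1057812500000000000000, [0]), (-1975262500000000000000, [1]), (737316681832500000000,
    [2]), (742613960366910000000, [3]), (-557203527824410589643, [4])]] = true := by
  decide +kernel

theorem c00404A {r : ℝ}
    (hr0 : 0 ≤ r) (hr1 : r ≤ 5449 / 5000) :
    0 ≤ (-632043 / 8000000) * r ^ 4 + (459 / 4000) * r ^ 3 + (9933 / 80000) * r ^ 2 + (-29 /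
    80) * r + (677 / 3200) := by
  obtain ⟨m, hm, h⟩ := checkK_sound c00404A_ok
    [(r - (0)) * (5000 / 5449)]
    (by
      intro a ha
      simp only [List.mem_cons, List.not_mem_nil, or_false] at ha
      subst ha
      all_goals constructor
      all_goals linarith)
  simp only [List.mem_cons, List.not_mem_nil, or_false] at hm
  subst hm
  · apply nonneg_of_mul_nonneg_right (a := (5000000000000000000000 : ℝ)) _ (by norm_num)
    refine le_of_le_of_eq h ?_
    simp only [PBox.evm, PBox.mon, PBox.xs]
    push_cast
    ring

theorem c00404B0_ok : checkK 66 61 [4]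
    O
    [[(1692500000000000000, [0]), (-1165800000000000000, [1]), (-270686700000000, [2]),
    (14909423436000000, [3]), (-1031646372586443, [4])]] = true := by
  decide +kernel

theorem c00404B0 {r : ℝ}
    (hr0 : 0 ≤ r) (hr1 : r ≤ 201 / 1000) :
    0 ≤ (-632043 / 8000000) * r ^ 4 + (459 / 2000) * r ^ 3 + (-67 / 80000) * r ^ 2 + (-29 /
    40) * r + (677 / 3200) := by
  obtain ⟨m, hm, h⟩ := checkK_sound c00404B0_ok
    [(r - (0)) * (1000 / 201)]
    (by
      intro a ha
      simp only [List.mem_cons, List.not_mem_nil, or_false] at ha
      subst ha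
      all_goals constructor
      all_goals linarith)
  simp only [List.mem_cons, List.not_mem_nil, or_false] at hm
  subst hm
  · apply nonneg_of_mul_nonneg_right (a := (8000000000000000000 : ℝ)) _ (by norm_num)
    refine le_of_le_of_eq h ?_
    simp only [PBox.evm, PBox.mon, PBox.xs]
    push_cast
    ring

theorem c00404C0_ok : checkK 66 61 [4]
    O
    [[(1692500000000000000, [0]), (-1748700000000000000, [1]), (40130313300000000, [2]),
    (22364135154000000, [3]), (-1031646372586443, [4])]] = true := by
  decide +kernel

theorem c00404C0 {r : ℝ}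
    (hr0 : 0 ≤ r) (hr1 : r ≤ 201 / 1000) :
    0 ≤ (-632043 / 8000000) * r ^ 4 + (1377 / 4000) * r ^ 3 + (9933 / 80000) * r ^ 2 + (-87 /
    80) * r + (677 / 3200) := by
  obtain ⟨m, hm, h⟩ := checkK_sound c00404C0_ok
    [(r - (0)) * (1000 / 201)]
    (by
      intro a ha
      simp only [List.mem_cons, List.not_mem_nil, or_false] at ha
      subst ha
      all_goals constructor
      all_goals linarith)
  simp only [List.mem_cons, List.not_mem_nil, or_false] at hm
  subst hm
  · apply nonneg_of_mul_nonneg_right (a := (8000000000000000000 : ℝ)) _ (by norm_num)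
    refine le_of_le_of_eq h ?_
    simp only [PBox.evm, PBox.mon, PBox.xs]
    push_cast
    ring

theorem c00404B_ok : checkK 95 88 [6]
    O
    [[(2678672807189674402983936, [0]), (31400100026687423727073280, [1]),
    (33827439696217783911456000, [2]), (-155360711852896783019360000, [3]),
    (117782915105144961139650000, [4]), (10692516960208375155675000, [5]),
    (-38386056365193750533578125, [6])]] = true := by
  decide +kernel

theorem c00404B {r : ℝ}
    (hr0 : 251 / 1250 ≤ r) (hr1 : r ≤ 5449 / 5000) :
    0 ≤ (-632043 / 8000000) * r ^ 6 + (459 / 4000) * r ^ 5 + (9933 / 80000) * r ^ 4 +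
    (-3578641 / 10000000) * r ^ 3 + (17733 / 80000) * r ^ 2 + (-2929 / 200000) * r + (-30603 /
    50000000) := by
  obtain ⟨m, hm, h⟩ := checkK_sound c00404B_ok
    [(r - (251 / 1250)) * (1000 / 889)]
    (by
      intro a ha
      simp only [List.mem_cons, List.not_mem_nil, or_false] at ha
      subst ha
      all_goals constructor
      all_goals linarith)
  simp only [List.mem_cons, List.not_mem_nil, or_false] at hm
  subst hm
  · apply nonneg_of_mul_nonneg_right (a := (125000000000000000000000000000 / 127 : ℝ)) _ (by norm_num)
    refine le_of_le_of_eq h ?_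
    simp only [PBox.evm, PBox.mon, PBox.xs]
    push_cast
    ring

theorem c00404C_ok : checkK 102 95 [6]
    O
    [[(2696008132986249178959872, [0]), (2873443131816926813338306560, [1]),
    (5569752942949328556754912000, [2]), (-19323665171424503943458720000, [3]),
    (14958430218353410064735550000, [4]), (1357949653946463644770725000, [5]),
    (-4875029158379606317764421875, [6])]] = true := by
  decide +kernel

theorem c00404C {r : ℝ}
    (hr0 : 251 / 1250 ≤ r) (hr1 : r ≤ 5449 / 5000) :
    0 ≤ (-632043 / 8000000) * r ^ 6 + (459 / 4000) * r ^ 5 + (9933 / 80000) * r ^ 4 +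
    (-1766141 / 5000000) * r ^ 3 + (18541 / 80000) * r ^ 2 + (-2929 / 100000) * r + (-10201 /
    12500000) := by
  obtain ⟨m, hm, h⟩ := checkK_sound c00404C_ok
    [(r - (251 / 1250)) * (1000 / 889)]
    (by
      intro a ha
      simp only [List.mem_cons, List.not_mem_nil, or_false] at ha
      subst ha
      all_goals constructor
      all_goals linarith)
  simp only [List.mem_cons, List.not_mem_nil, or_false] at hm
  subst hm
  · apply nonneg_of_mul_nonneg_right (a := (125000000000000000000000000000 : ℝ)) _ (by norm_num)
    refine le_of_le_of_eq h ?_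
    simp only [PBox.evm, PBox.mon, PBox.xs]
    push_cast
    ring

theorem c00604A_ok : checkK 77 72 [4]
    O
    [[(1261730000000000000000, [0]), (-1923497000000000000000, [1]), (458396751198600000000,
    [2]), (690841309535230000000, [3]), (-482218909273721685387, [4])]] = true := by
  decide +kernel

theorem c00604A {r : ℝ}
    (hr0 : 0 ≤ r) (hr1 : r ≤ 5449 / 5000) :
    0 ≤ (-546987 / 8000000) * r ^ 4 + (427 / 4000) * r ^ 3 + (77193 / 1000000) * r ^ 2 + (-353
    / 1000) * r + (126173 / 500000) := by
  obtain ⟨m, hm, h⟩ := checkK_sound c00604A_ok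
    [(r - (0)) * (5000 / 5449)]
    (by
      intro a ha
      simp only [List.mem_cons, List.not_mem_nil, or_false] at ha
      subst ha
      all_goals constructor
      all_goals linarith)
  simp only [List.mem_cons, List.not_mem_nil, or_false] at hm
  subst hm
  · apply nonneg_of_mul_nonneg_right (a := (5000000000000000000000 : ℝ)) _ (by norm_num)
    refine le_of_le_of_eq h ?_
    simp only [PBox.evm, PBox.mon, PBox.xs]
    push_cast
    ring

theorem c00604B0_ok : checkK 76 71 [4]
    O
    [[(1261730000000000000000, [0]), (-867674000000000000000, [1]), (-14441930577400000000,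
    [2]), (15853075186060000000, [3]), (-1247913653304918747, [4])]] = true := by
  decide +kernel

theorem c00604B0 {r : ℝ}
    (hr0 : 0 ≤ r) (hr1 : r ≤ 1229 / 5000) :
    0 ≤ (-546987 / 8000000) * r ^ 4 + (427 / 2000) * r ^ 3 + (-47807 / 1000000) * r ^ 2 +
    (-353 / 500) * r + (126173 / 500000) := by
  obtain ⟨m, hm, h⟩ := checkK_sound c00604B0_ok
    [(r - (0)) * (5000 / 1229)]
    (by
      intro a ha
      simp only [List.mem_cons, List.not_mem_nil, or_false] at ha
      subst ha
      all_goals constructor
      all_goals linarith)
  simp only [List.mem_cons, List.not_mem_nil, or_false] at hm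
  subst hm
  · apply nonneg_of_mul_nonneg_right (a := (5000000000000000000000 : ℝ)) _ (by norm_num)
    refine le_of_le_of_eq h ?_
    simp only [PBox.evm, PBox.mon, PBox.xs]
    push_cast
    ring

theorem c00604C0_ok : checkK 76 71 [4]
    O
    [[(1261730000000000000000, [0]), (-1301511000000000000000, [1]), (23319094422600000000,
    [2]), (23779612779090000000, [3]), (-1247913653304918747, [4])]] = true := by
  decide +kernel

theorem c00604C0 {r : ℝ}
    (hr0 : 0 ≤ r) (hr1 : r ≤ 1229 / 5000) :
    0 ≤ (-546987 / 8000000) * r ^ 4 + (1281 / 4000) * r ^ 3 + (77193 / 1000000) * r ^ 2 +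
    (-1059 / 1000) * r + (126173 / 500000) := by
  obtain ⟨m, hm, h⟩ := checkK_sound c00604C0_ok
    [(r - (0)) * (5000 / 1229)]
    (by
      intro a ha
      simp only [List.mem_cons, List.not_mem_nil, or_false] at ha
      subst ha
      all_goals constructor
      all_goals linarith)
  simp only [List.mem_cons, List.not_mem_nil, or_false] at hm
  subst hm
  · apply nonneg_of_mul_nonneg_right (a := (5000000000000000000000 : ℝ)) _ (by norm_num)
    refine le_of_le_of_eq h ?_
    simp only [PBox.evm, PBox.mon, PBox.xs]
    push_cast
    ring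

theorem c00604B_ok : checkK 102 95 [6]
    O
    [[(594361887920070609552330752, [0]), (5644167021144267421599811584, [1]),
    (4643647590580515388930302720, [2]), (-17040316972237698177370241280, [3]),
    (9295807896548238376596383280, [4]), (321310966393984044565418184, [5]),
    (-3093635321906076869602339827, [6])]] = true := by
  decide +kernel

theorem c00604B {r : ℝ}
    (hr0 : 307 / 1250 ≤ r) (hr1 : r ≤ 5449 / 5000) :
    0 ≤ (-546987 / 8000000) * r ^ 6 + (427 / 4000) * r ^ 5 + (77193 / 1000000) * r ^ 4 +
    (-3465523 / 10000000) * r ^ 3 + (133723 / 500000) * r ^ 2 + (-53303 / 2500000) * r +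
    (-68403 / 50000000) := by
  obtain ⟨m, hm, h⟩ := checkK_sound c00604B_ok
    [(r - (307 / 1250)) * (5000 / 4221)]
    (by
      intro a ha
      simp only [List.mem_cons, List.not_mem_nil, or_false] at ha
      subst ha
      all_goals constructor
      all_goals linarith)
  simp only [List.mem_cons, List.not_mem_nil, or_false] at hm
  subst hm
  · apply nonneg_of_mul_nonneg_right (a := (125000000000000000000000000000 : ℝ)) _ (by norm_num)
    refine le_of_le_of_eq h ?_
    simp only [PBox.evm, PBox.mon, PBox.xs]
    push_cast
    ring

theorem c00604C_ok : checkK 102 95 [6]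
    O
    [[(8591218840461009552330752, [0]), (4300061688239465821599811584, [1]),
    (6412028332897154188930302720, [2]), (-16555418429671728477370241280, [3]),
    (9295807896548238376596383280, [4]), (321310966393984044565418184, [5]),
    (-3093635321906076869602339827, [6])]] = true := by
  decide +kernel

theorem c00604C {r : ℝ}
    (hr0 : 307 / 1250 ≤ r) (hr1 : r ≤ 5449 / 5000) :
    0 ≤ (-546987 / 8000000) * r ^ 6 + (427 / 4000) * r ^ 5 + (77193 / 1000000) * r ^ 4 +
    (-1700523 / 5000000) * r ^ 3 + (141273 / 500000) * r ^ 2 + (-53303 / 1250000) * r +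
    (-22801 / 12500000) := by
  obtain ⟨m, hm, h⟩ := checkK_sound c00604C_ok
    [(r - (307 / 1250)) * (5000 / 4221)]
    (by
      intro a ha
      simp only [List.mem_cons, List.not_mem_nil, or_false] at ha
      subst ha
      all_goals constructor
      all_goals linarith)
  simp only [List.mem_cons, List.not_mem_nil, or_false] at hm
  subst hm
  · apply nonneg_of_mul_nonneg_right (a := (125000000000000000000000000000 : ℝ)) _ (by norm_num)
    refine le_of_le_of_eq h ?_
    simp only [PBox.evm, PBox.mon, PBox.xs]
    push_cast
    ring

theorem c00604bA_ok : checkK 67 62 [4]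
    O
    [[(1299070434570312500, [0]), (-1861120849609375000, [1]), (356577570759375000, [2]),
    (657269981261562500, [3]), (-446966723161202907, [4])]] = true := by
  decide +kernel

theorem c00604bA {r : ℝ}
    (hr0 : 0 ≤ r) (hr1 : r ≤ 5449 / 5000) :
    0 ≤ (-1014 / 15625) * r ^ 4 + (13 / 125) * r ^ 3 + (3843 / 62500) * r ^ 2 + (-1399 / 4000)
    * r + (2128397 / 8000000) := by
  obtain ⟨m, hm, h⟩ := checkK_sound c00604bA_ok
    [(r - (0)) * (5000 / 5449)]
    (by
      intro a ha
      simp only [List.mem_cons, List.not_mem_nil, or_false] at ha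
      subst ha
      all_goals constructor
      all_goals linarith)
  simp only [List.mem_cons, List.not_mem_nil, or_false] at hm
  subst hm
  · apply nonneg_of_mul_nonneg_right (a := (4882812500000000000 : ℝ)) _ (by norm_num)
    refine le_of_le_of_eq h ?_
    simp only [PBox.evm, PBox.mon, PBox.xs]
    push_cast
    ring

theorem c00604bB0_ok : checkK 66 61 [4]
    O
    [[(1299070434570312500, [0]), (-839536621093750000, [1]), (-18736548592187500, [2]),
    (15082697410625000, [3]), (-1156686031341867, [4])]] = true := by
  decide +kernel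

theorem c00604bB0 {r : ℝ}
    (hr0 : 0 ≤ r) (hr1 : r ≤ 1229 / 5000) :
    0 ≤ (-1014 / 15625) * r ^ 4 + (26 / 125) * r ^ 3 + (-7939 / 125000) * r ^ 2 + (-1399 /
    2000) * r + (2128397 / 8000000) := by
  obtain ⟨m, hm, h⟩ := checkK_sound c00604bB0_ok
    [(r - (0)) * (5000 / 1229)]
    (by
      intro a ha
      simp only [List.mem_cons, List.not_mem_nil, or_false] at ha
      subst ha
      all_goals constructor
      all_goals linarith)
  simp only [List.mem_cons, List.not_mem_nil, or_false] at hm
  subst hm
  · apply nonneg_of_mul_nonneg_right (a := (4882812500000000000 : ℝ)) _ (by norm_num)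
    refine le_of_le_of_eq h ?_
    simp only [PBox.evm, PBox.mon, PBox.xs]
    push_cast
    ring

theorem c00604bC0_ok : checkK 66 61 [4]
    O
    [[(1299070434570312500, [0]), (-1259304931640625000, [1]), (18139452384375000, [2]),
    (22624046115937500, [3]), (-1156686031341867, [4])]] = true := by
  decide +kernel

theorem c00604bC0 {r : ℝ}
    (hr0 : 0 ≤ r) (hr1 : r ≤ 1229 / 5000) :
    0 ≤ (-1014 / 15625) * r ^ 4 + (39 / 125) * r ^ 3 + (3843 / 62500) * r ^ 2 + (-4197 / 4000)
    * r + (2128397 / 8000000) := by
  obtain ⟨m, hm, h⟩ := checkK_sound c00604bC0_ok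
    [(r - (0)) * (5000 / 1229)]
    (by
      intro a ha
      simp only [List.mem_cons, List.not_mem_nil, or_false] at ha
      subst ha
      all_goals constructor
      all_goals linarith)
  simp only [List.mem_cons, List.not_mem_nil, or_false] at hm
  subst hm
  · apply nonneg_of_mul_nonneg_right (a := (4882812500000000000 : ℝ)) _ (by norm_num)
    refine le_of_le_of_eq h ?_
    simp only [PBox.evm, PBox.mon, PBox.xs]
    push_cast
    ring

theorem c00604bB_ok : checkK 88 81 [6]
    O
    [[(76179345964878885785408, [0]), (687127242662905922167136, [1]),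
    (601249099098993068887380, [2]), (-1954857047843674210776120, [3]),
    (898880474584341495744120, [4]), (48672208783319763951036, [5]),
    (-318608650298286791071083, [6])]] = true := by
  decide +kernel

theorem c00604bB {r : ℝ}
    (hr0 : 307 / 1250 ≤ r) (hr1 : r ≤ 5449 / 5000) :
    0 ≤ (-1014 / 15625) * r ^ 6 + (13 / 125) * r ^ 5 + (3843 / 62500) * r ^ 4 + (-858671 /
    2500000) * r ^ 3 + (2249197 / 8000000) * r ^ 2 + (-211249 / 10000000) * r + (-68403 /
    50000000) := by
  obtain ⟨m, hm, h⟩ := checkK_sound c00604bB_ok
    [(r - (307 / 1250)) * (5000 / 4221)]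
    (by
      intro a ha
      simp only [List.mem_cons, List.not_mem_nil, or_false] at ha
      subst ha
      all_goals constructor
      all_goals linarith)
  simp only [List.mem_cons, List.not_mem_nil, or_false] at hm
  subst hm
  · apply nonneg_of_mul_nonneg_right (a := (122070312500000000000000000 / 9 : ℝ)) _ (by norm_num)
    refine le_of_le_of_eq h ?_
    simp only [PBox.evm, PBox.mon, PBox.xs]
    push_cast
    ring

theorem c00604bC_ok : checkK 92 85 [6]
    O
    [[(119157234990084972068672, [0]), (4888673939048172049504224, [1]),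
    (7127529388355693869986420, [2]), (-17132378458889496021985080, [3]),
    (8089924271259073461697080, [4]), (438049879049877875559324, [5]),
    (-2867477852684581119639747, [6])]] = true := by
  decide +kernel

theorem c00604bC {r : ℝ}
    (hr0 : 307 / 1250 ≤ r) (hr1 : r ≤ 5449 / 5000) :
    0 ≤ (-1014 / 15625) * r ^ 6 + (13 / 125) * r ^ 5 + (3843 / 62500) * r ^ 4 + (-842967 /
    2500000) * r ^ 3 + (2369997 / 8000000) * r ^ 2 + (-211249 / 5000000) * r + (-22801 /
    12500000) := by
  obtain ⟨m, hm, h⟩ := checkK_sound c00604bC_ok
    [(r - (307 / 1250)) * (5000 / 4221)]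
    (by
      intro a ha
      simp only [List.mem_cons, List.not_mem_nil, or_false] at ha
      subst ha
      all_goals constructor
      all_goals linarith)
  simp only [List.mem_cons, List.not_mem_nil, or_false] at hm
  subst hm
  · apply nonneg_of_mul_nonneg_right (a := (122070312500000000000000000 : ℝ)) _ (by norm_num)
    refine le_of_le_of_eq h ?_
    simp only [PBox.evm, PBox.mon, PBox.xs]
    push_cast
    ring

theorem c00904A_ok : checkK 76 71 [4]
    O
    [[(1496208125000000000000, [0]), (-1862195750000000000000, [1]), (141464148384450000000,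
    [2]), (629361286672610000000, [3]), (-400209772280925355563, [4])]] = true := by
  decide +kernel

theorem c00904A {r : ℝ}
    (hr0 : 0 ≤ r) (hr1 : r ≤ 5449 / 5000) :
    0 ≤ (-453963 / 8000000) * r ^ 4 + (389 / 4000) * r ^ 3 + (95289 / 4000000) * r ^ 2 +
    (-1367 / 4000) * r + (2393933 / 8000000) := by
  obtain ⟨m, hm, h⟩ := checkK_sound c00904A_ok
    [(r - (0)) * (5000 / 5449)]
    (by
      intro a ha
      simp only [List.mem_cons, List.not_mem_nil, or_false] at ha
      subst ha
      all_goals constructor
      all_goals linarith)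
  simp only [List.mem_cons, List.not_mem_nil, or_false] at hm
  subst hm
  · apply nonneg_of_mul_nonneg_right (a := (5000000000000000000000 : ℝ)) _ (by norm_num)
    refine le_of_le_of_eq h ?_
    simp only [PBox.evm, PBox.mon, PBox.xs]
    push_cast
    ring

theorem c00904B0_ok : checkK 80 75 [4]
    O
    [[(23939330000000000000000, [0]), (-16442276000000000000000, [1]),
    (-731883338567800000000, [2]), (423067707297080000000, [3]), (-37115402083699673163,
    [4])]] = true := by
  decide +kernel

theorem c00904B0 {r : ℝ}
    (hr0 : 0 ≤ r) (hr1 : r ≤ 3007 / 10000) :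
    0 ≤ (-453963 / 8000000) * r ^ 4 + (389 / 2000) * r ^ 3 + (-404711 / 4000000) * r ^ 2 +
    (-1367 / 2000) * r + (2393933 / 8000000) := by
  obtain ⟨m, hm, h⟩ := checkK_sound c00904B0_ok
    [(r - (0)) * (10000 / 3007)]
    (by
      intro a ha
      simp only [List.mem_cons, List.not_mem_nil, or_false] at ha
      subst ha
      all_goals constructor
      all_goals linarith)
  simp only [List.mem_cons, List.not_mem_nil, or_false] at hm
  subst hm
  · apply nonneg_of_mul_nonneg_right (a := (80000000000000000000000 : ℝ)) _ (by norm_num)
    refine le_of_le_of_eq h ?_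
    simp only [PBox.evm, PBox.mon, PBox.xs]
    push_cast
    ring

theorem c00904C0_ok : checkK 80 75 [4]
    O
    [[(23939330000000000000000, [0]), (-24663414000000000000000, [1]), (172321561432200000000,
    [2]), (634601560945620000000, [3]), (-37115402083699673163, [4])]] = true := by
  decide +kernel

theorem c00904C0 {r : ℝ}
    (hr0 : 0 ≤ r) (hr1 : r ≤ 3007 / 10000) :
    0 ≤ (-453963 / 8000000) * r ^ 4 + (1167 / 4000) * r ^ 3 + (95289 / 4000000) * r ^ 2 +
    (-4101 / 4000) * r + (2393933 / 8000000) := by
  obtain ⟨m, hm, h⟩ := checkK_sound c00904C0_ok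
    [(r - (0)) * (10000 / 3007)]
    (by
      intro a ha
      simp only [List.mem_cons, List.not_mem_nil, or_false] at ha
      subst ha
      all_goals constructor
      all_goals linarith)
  simp only [List.mem_cons, List.not_mem_nil, or_false] at hm
  subst hm
  · apply nonneg_of_mul_nonneg_right (a := (80000000000000000000000 : ℝ)) _ (by norm_num)
    refine le_of_le_of_eq h ?_
    simp only [PBox.evm, PBox.mon, PBox.xs]
    push_cast
    ring

theorem c00904B_ok : checkK 107 100 [6]
    O
    [[(64559727870961016766863078125, [0]), (492840521956520956286119518750, [1]),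
    (269306774589491180654857621875, [2]), (-972850461248343190148090977500, [3]),
    (289006769557273758843518863875, [4]), (-12405521242706955699860932770, [5]),
    (-109767323358907756469789659587, [6])]] = true := by
  decide +kernel

theorem c00904B {r : ℝ}
    (hr0 : 601 / 2000 ≤ r) (hr1 : r ≤ 5449 / 5000) :
    0 ≤ (-453963 / 8000000) * r ^ 6 + (389 / 4000) * r ^ 5 + (95289 / 4000000) * r ^ 4 +
    (-1664793 / 5000000) * r ^ 3 + (2574733 / 8000000) * r ^ 2 + (-154471 / 5000000) * r +
    (-38307 / 12500000) := by
  obtain ⟨m, hm, h⟩ := checkK_sound c00904B_ok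
    [(r - (601 / 2000)) * (10000 / 7893)]
    (by
      intro a ha
      simp only [List.mem_cons, List.not_mem_nil, or_false] at ha
      subst ha
      all_goals constructor
      all_goals linarith)
  simp only [List.mem_cons, List.not_mem_nil, or_false] at hm
  subst hm
  · apply nonneg_of_mul_nonneg_right (a := (8000000000000000000000000000000 : ℝ)) _ (by norm_num)
    refine le_of_le_of_eq h ?_
    simp only [PBox.evm, PBox.mon, PBox.xs]
    push_cast
    ring

theorem c00904C_ok : checkK 107 100 [6]
    O
    [[(352649216272416766863078125, [0]), (398566510088577076286119518750, [1]),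
    (421444257374183012654857621875, [2]), (-938266531854076231748090977500, [3]),
    (289006769557273758843518863875, [4]), (-12405521242706955699860932770, [5]),
    (-109767323358907756469789659587, [6])]] = true := by
  decide +kernel

theorem c00904C {r : ℝ}
    (hr0 : 601 / 2000 ≤ r) (hr1 : r ≤ 5449 / 5000) :
    0 ≤ (-453963 / 8000000) * r ^ 6 + (389 / 4000) * r ^ 5 + (95289 / 4000000) * r ^ 4 +
    (-405209 / 1250000) * r ^ 3 + (2755533 / 8000000) * r ^ 2 + (-154471 / 2500000) * r +
    (-12769 / 3125000) := by
  obtain ⟨m, hm, h⟩ := checkK_sound c00904C_ok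
    [(r - (601 / 2000)) * (10000 / 7893)]
    (by
      intro a ha
      simp only [List.mem_cons, List.not_mem_nil, or_false] at ha
      subst ha
      all_goals constructor
      all_goals linarith)
  simp only [List.mem_cons, List.not_mem_nil, or_false] at hm
  subst hm
  · apply nonneg_of_mul_nonneg_right (a := (8000000000000000000000000000000 : ℝ)) _ (by norm_num)
    refine le_of_le_of_eq h ?_
    simp only [PBox.evm, PBox.mon, PBox.xs]
    push_cast
    ring

theorem c012A_ok : checkK 76 71 [4]
    O
    [[(1688298125000000000000, [0]), (-1810430250000000000000, [1]), (-113779699612050000000,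
    [2]), (577588635840930000000, [3]), (-337073739054273072747, [4])]] = true := by
  decide +kernel

theorem c012A {r : ℝ}
    (hr0 : 0 ≤ r) (hr1 : r ≤ 5449 / 5000) :
    0 ≤ (-382347 / 8000000) * r ^ 4 + (357 / 4000) * r ^ 3 + (-76641 / 4000000) * r ^ 2 +
    (-1329 / 4000) * r + (2701277 / 8000000) := by
  obtain ⟨m, hm, h⟩ := checkK_sound c012A_ok
    [(r - (0)) * (5000 / 5449)]
    (by
      intro a ha
      simp only [List.mem_cons, List.not_mem_nil, or_false] at ha
      subst ha
      all_goals constructor
      all_goals linarith)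
  simp only [List.mem_cons, List.not_mem_nil, or_false] at hm
  subst hm
  · apply nonneg_of_mul_nonneg_right (a := (5000000000000000000000 : ℝ)) _ (by norm_num)
    refine le_of_le_of_eq h ?_
    simp only [PBox.evm, PBox.mon, PBox.xs]
    push_cast
    ring

theorem c012B0_ok : checkK 71 66 [4]
    O
    [[(43220432000000000000, [0]), (-29471904000000000000, [1]), (-2215450108872000000, [2]),
    (950512662792000000, [3]), (-88184168732776347, [4])]] = true := by
  decide +kernel

theorem c012B0 {r : ℝ}
    (hr0 : 0 ≤ r) (hr1 : r ≤ 693 / 2000) :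
    0 ≤ (-382347 / 8000000) * r ^ 4 + (357 / 2000) * r ^ 3 + (-576641 / 4000000) * r ^ 2 +
    (-1329 / 2000) * r + (2701277 / 8000000) := by
  obtain ⟨m, hm, h⟩ := checkK_sound c012B0_ok
    [(r - (0)) * (2000 / 693)]
    (by
      intro a ha
      simp only [List.mem_cons, List.not_mem_nil, or_false] at ha
      subst ha
      all_goals constructor
      all_goals linarith)
  simp only [List.mem_cons, List.not_mem_nil, or_false] at hm
  subst hm
  · apply nonneg_of_mul_nonneg_right (a := (128000000000000000000 : ℝ)) _ (by norm_num)
    refine le_of_le_of_eq h ?_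
    simp only [PBox.evm, PBox.mon, PBox.xs]
    push_cast
    ring

theorem c012C0_ok : checkK 71 66 [4]
    O
    [[(43220432000000000000, [0]), (-44207856000000000000, [1]), (-294454108872000000, [2]),
    (1425768994188000000, [3]), (-88184168732776347, [4])]] = true := by
  decide +kernel

theorem c012C0 {r : ℝ}
    (hr0 : 0 ≤ r) (hr1 : r ≤ 693 / 2000) :
    0 ≤ (-382347 / 8000000) * r ^ 4 + (1071 / 4000) * r ^ 3 + (-76641 / 4000000) * r ^ 2 +
    (-3987 / 4000) * r + (2701277 / 8000000) := by
  obtain ⟨m, hm, h⟩ := checkK_sound c012C0_ok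
    [(r - (0)) * (2000 / 693)]
    (by
      intro a ha
      simp only [List.mem_cons, List.not_mem_nil, or_false] at ha
      subst ha
      all_goals constructor
      all_goals linarith)
  simp only [List.mem_cons, List.not_mem_nil, or_false] at hm
  subst hm
  · apply nonneg_of_mul_nonneg_right (a := (128000000000000000000 : ℝ)) _ (by norm_num)
    refine le_of_le_of_eq h ?_
    simp only [PBox.evm, PBox.mon, PBox.xs]
    push_cast
    ring

theorem c012B_ok : checkK 107 100 [6]
    O
    [[(92937690488236614020932107077, [0]), (600135672530583002032691769190, [1]),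
    (205992560648808607492102803875, [2]), (-923094044356173301529953567500, [3]),
    (120771667250553268886136346875, [4]), (-18275957827710637070659256250, [5]),
    (-64586763780350596017995671875, [6])]] = true := by
  decide +kernel

theorem c012B {r : ℝ}
    (hr0 : 3463 / 10000 ≤ r) (hr1 : r ≤ 5449 / 5000) :
    0 ≤ (-382347 / 8000000) * r ^ 6 + (357 / 4000) * r ^ 5 + (-76641 / 4000000) * r ^ 4 +
    (-16077 / 50000) * r ^ 3 + (2941277 / 8000000) * r ^ 2 + (-3987 / 100000) * r + (-27 /
    5000) := by
  obtain ⟨m, hm, h⟩ := checkK_sound c012B_ok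
    [(r - (3463 / 10000)) * (2000 / 1487)]
    (by
      intro a ha
      simp only [List.mem_cons, List.not_mem_nil, or_false] at ha
      subst ha
      all_goals constructor
      all_goals linarith)
  simp only [List.mem_cons, List.not_mem_nil, or_false] at hm
  subst hm
  · apply nonneg_of_mul_nonneg_right (a := (8000000000000000000000000000000 : ℝ)) _ (by norm_num)
    refine le_of_le_of_eq h ?_
    simp only [PBox.evm, PBox.mon, PBox.xs]
    push_cast
    ring

theorem c012C_ok : checkK 107 100 [6]
    O
    [[(421781975447574020932107077, [0]), (509494981784478602032691769190, [1]),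
    (387868370664030607492102803875, [2]), (-887879475431043301529953567500, [3]),
    (120771667250553268886136346875, [4]), (-18275957827710637070659256250, [5]),
    (-64586763780350596017995671875, [6])]] = true := by
  decide +kernel

theorem c012C {r : ℝ}
    (hr0 : 3463 / 10000 ≤ r) (hr1 : r ≤ 5449 / 5000) :
    0 ≤ (-382347 / 8000000) * r ^ 6 + (357 / 4000) * r ^ 5 + (-76641 / 4000000) * r ^ 4 +
    (-31083 / 100000) * r ^ 3 + (3181277 / 8000000) * r ^ 2 + (-3987 / 50000) * r + (-9 /
    1250) := by
  obtain ⟨m, hm, h⟩ := checkK_sound c012C_ok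
    [(r - (3463 / 10000)) * (2000 / 1487)]
    (by
      intro a ha
      simp only [List.mem_cons, List.not_mem_nil, or_false] at ha
      subst ha
      all_goals constructor
      all_goals linarith)
  simp only [List.mem_cons, List.not_mem_nil, or_false] at hm
  subst hm
  · apply nonneg_of_mul_nonneg_right (a := (8000000000000000000000000000000 : ℝ)) _ (by norm_num)
    refine le_of_le_of_eq h ?_
    simp only [PBox.evm, PBox.mon, PBox.xs]
    push_cast
    ring

theorem c013A_ok : checkK 76 71 [4]
    O
    [[(1747833125000000000000, [0]), (-1794083250000000000000, [1]), (-191515280190150000000,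
    [2]), (561409682456030000000, [3]), (-318454533545072667627, [4])]] = true := by
  decide +kernel

theorem c013A {r : ℝ}
    (hr0 : 0 ≤ r) (hr1 : r ≤ 5449 / 5000) :
    0 ≤ (-361227 / 8000000) * r ^ 4 + (347 / 4000) * r ^ 3 + (-129003 / 4000000) * r ^ 2 +
    (-1317 / 4000) * r + (2796533 / 8000000) := by
  obtain ⟨m, hm, h⟩ := checkK_sound c013A_ok
    [(r - (0)) * (5000 / 5449)]
    (by
      intro a ha
      simp only [List.mem_cons, List.not_mem_nil, or_false] at ha
      subst ha
      all_goals constructor
      all_goals linarith)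
  simp only [List.mem_cons, List.not_mem_nil, or_false] at hm
  subst hm
  · apply nonneg_of_mul_nonneg_right (a := (5000000000000000000000 : ℝ)) _ (by norm_num)
    refine le_of_le_of_eq h ?_
    simp only [PBox.evm, PBox.mon, PBox.xs]
    push_cast
    ring

theorem c013B0_ok : checkK 76 71 [4]
    O
    [[(1747833125000000000000, [0]), (-1187275500000000000000, [1]), (-102238430671350000000,
    [2]), (40676787871380000000, [3]), (-3817359936095708187, [4])]] = true := by
  decide +kernel

theorem c013B0 {r : ℝ}
    (hr0 : 0 ≤ r) (hr1 : r ≤ 1803 / 5000) :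
    0 ≤ (-361227 / 8000000) * r ^ 4 + (347 / 2000) * r ^ 3 + (-629003 / 4000000) * r ^ 2 +
    (-1317 / 2000) * r + (2796533 / 8000000) := by
  obtain ⟨m, hm, h⟩ := checkK_sound c013B0_ok
    [(r - (0)) * (5000 / 1803)]
    (by
      intro a ha
      simp only [List.mem_cons, List.not_mem_nil, or_false] at ha
      subst ha
      all_goals constructor
      all_goals linarith)
  simp only [List.mem_cons, List.not_mem_nil, or_false] at hm
  subst hm
  · apply nonneg_of_mul_nonneg_right (a := (5000000000000000000000 : ℝ)) _ (by norm_num)
    refine le_of_le_of_eq h ?_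
    simp only [PBox.evm, PBox.mon, PBox.xs]
    push_cast
    ring

theorem c013C0_ok : checkK 76 71 [4]
    O
    [[(1747833125000000000000, [0]), (-1780913250000000000000, [1]), (-20968205671350000000,
    [2]), (61015181807070000000, [3]), (-3817359936095708187, [4])]] = true := by
  decide +kernel

theorem c013C0 {r : ℝ}
    (hr0 : 0 ≤ r) (hr1 : r ≤ 1803 / 5000) :
    0 ≤ (-361227 / 8000000) * r ^ 4 + (1041 / 4000) * r ^ 3 + (-129003 / 4000000) * r ^ 2 +
    (-3951 / 4000) * r + (2796533 / 8000000) := by
  obtain ⟨m, hm, h⟩ := checkK_sound c013C0_ok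
    [(r - (0)) * (5000 / 1803)]
    (by
      intro a ha
      simp only [List.mem_cons, List.not_mem_nil, or_false] at ha
      subst ha
      all_goals constructor
      all_goals linarith)
  simp only [List.mem_cons, List.not_mem_nil, or_false] at hm
  subst hm
  · apply nonneg_of_mul_nonneg_right (a := (5000000000000000000000 : ℝ)) _ (by norm_num)
    refine le_of_le_of_eq h ?_
    simp only [PBox.evm, PBox.mon, PBox.xs]
    push_cast
    ring

theorem c013B_ok : checkK 101 94 [6]
    O
    [[(1607749646555765163421630272, [0]), (9876092507228283293304569152, [1]),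
    (2814625922823508911885909680, [2]), (-14264126890698145514448307360, [3]),
    (1277242172300393843073344780, [4]), (-281030238802425071073676268, [5]),
    (-849952751574816415469971083, [6])]] = true := by
  decide +kernel

theorem c013B {r : ℝ}
    (hr0 : 901 / 2500 ≤ r) (hr1 : r ≤ 5449 / 5000) :
    0 ≤ (-361227 / 8000000) * r ^ 6 + (347 / 4000) * r ^ 5 + (-129003 / 4000000) * r ^ 4 +
    (-127189 / 400000) * r ^ 3 + (3056533 / 8000000) * r ^ 2 + (-17121 / 400000) * r + (-507 /
    80000) := by
  obtain ⟨m, hm, h⟩ := checkK_sound c013B_ok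
    [(r - (901 / 2500)) * (5000 / 3647)]
    (by
      intro a ha
      simp only [List.mem_cons, List.not_mem_nil, or_false] at ha
      subst ha
      all_goals constructor
      all_goals linarith)
  simp only [List.mem_cons, List.not_mem_nil, or_false] at hm
  subst hm
  · apply nonneg_of_mul_nonneg_right (a := (125000000000000000000000000000 : ℝ)) _ (by norm_num)
    refine le_of_le_of_eq h ?_
    simp only [PBox.evm, PBox.mon, PBox.xs]
    push_cast
    ring

theorem c013C_ok : checkK 101 94 [6]
    O
    [[(9095029839985163421630272, [0]), (8510103293694793293304569152, [1]),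
    (5786862008217993911885909680, [2]), (-13717085577861263014448307360, [3]),
    (1277242172300393843073344780, [4]), (-281030238802425071073676268, [5]),
    (-849952751574816415469971083, [6])]] = true := by
  decide +kernel

theorem c013C {r : ℝ}
    (hr0 : 901 / 2500 ≤ r) (hr1 : r ≤ 5449 / 5000) :
    0 ≤ (-361227 / 8000000) * r ^ 6 + (347 / 4000) * r ^ 5 + (-129003 / 4000000) * r ^ 4 +
    (-61339 / 200000) * r ^ 3 + (3316533 / 8000000) * r ^ 2 + (-17121 / 200000) * r + (-169 /
    20000) := by
  obtain ⟨m, hm, h⟩ := checkK_sound c013C_ok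
    [(r - (901 / 2500)) * (5000 / 3647)]
    (by
      intro a ha
      simp only [List.mem_cons, List.not_mem_nil, or_false] at ha
      subst ha
      all_goals constructor
      all_goals linarith)
  simp only [List.mem_cons, List.not_mem_nil, or_false] at hm
  subst hm
  · apply nonneg_of_mul_nonneg_right (a := (125000000000000000000000000000 : ℝ)) _ (by norm_num)
    refine le_of_le_of_eq h ?_
    simp only [PBox.evm, PBox.mon, PBox.xs]
    push_cast
    ring

/-- `c(w) = 0.742 - 0.2435 w` for all caps `≤ 0.0152` -/
theorem isC00152 : IsC 0.0152 0.742 0.2435 := by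
  refine isC_of (by norm_num) (by norm_num) ?_ ?_ ?_ ?_ ?_
  · intro r h0 h1
    have := c00152A (r := r) (by linarith) (by linarith)
    nlinarith [this]
  · intro r h0 h1
    have h2 : r ≤ 1233 / 10000 := by nlinarith
    have := c00152B0 (r := r) (by linarith) (by linarith)
    nlinarith [this]
  · intro r h0 h1
    have h2 : r ≤ 1233 / 10000 := by nlinarith
    have := c00152C0 (r := r) (by linarith) (by linarith)
    nlinarith [this]
  · intro r h0 h1 h2
    have h3 : 1231 / 10000 ≤ r := by nlinarith
    have := c00152B (r := r) (by linarith) (by linarith)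
    nlinarith [this]
  · intro r h0 h1 h2
    have h3 : 1231 / 10000 ≤ r := by nlinarith
    have := c00152C (r := r) (by linarith) (by linarith)
    nlinarith [this]

/-- `c(w) = 0.738 - 0.2405 w` for all caps `≤ 0.0226` -/
theorem isC00226 : IsC 0.0226 0.738 0.2405 := by
  refine isC_of (by norm_num) (by norm_num) ?_ ?_ ?_ ?_ ?_
  · intro r h0 h1
    have := c00226A (r := r) (by linarith) (by linarith)
    nlinarith [this]
  · intro r h0 h1
    have h2 : r ≤ 94 / 625 := by nlinarith
    have := c00226B0 (r := r) (by linarith) (by linarith)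
    nlinarith [this]
  · intro r h0 h1
    have h2 : r ≤ 94 / 625 := by nlinarith
    have := c00226C0 (r := r) (by linarith) (by linarith)
    nlinarith [this]
  · intro r h0 h1 h2
    have h3 : 751 / 5000 ≤ r := by nlinarith
    have := c00226B (r := r) (by linarith) (by linarith)
    nlinarith [this]
  · intro r h0 h1 h2
    have h3 : 751 / 5000 ≤ r := by nlinarith
    have := c00226C (r := r) (by linarith) (by linarith)
    nlinarith [this]

/-- `c(w) = 0.7345 - 0.2375 w` for all caps `≤ 0.0302` -/
theorem isC00302 : IsC 0.0302 0.7345 0.2375 := by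
  refine isC_of (by norm_num) (by norm_num) ?_ ?_ ?_ ?_ ?_
  · intro r h0 h1
    have := c00302A (r := r) (by linarith) (by linarith)
    nlinarith [this]
  · intro r h0 h1
    have h2 : r ≤ 869 / 5000 := by nlinarith
    have := c00302B0 (r := r) (by linarith) (by linarith)
    nlinarith [this]
  · intro r h0 h1
    have h2 : r ≤ 869 / 5000 := by nlinarith
    have := c00302C0 (r := r) (by linarith) (by linarith)
    nlinarith [this]
  · intro r h0 h1 h2
    have h3 : 217 / 1250 ≤ r := by nlinarith
    have := c00302B (r := r) (by linarith) (by linarith)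
    nlinarith [this]
  · intro r h0 h1 h2
    have h3 : 217 / 1250 ≤ r := by nlinarith
    have := c00302C (r := r) (by linarith) (by linarith)
    nlinarith [this]

/-- `c(w) = 0.725 - 0.2295 w` for all caps `≤ 0.0404` -/
theorem isC00404 : IsC 0.0404 0.725 0.2295 := by
  refine isC_of (by norm_num) (by norm_num) ?_ ?_ ?_ ?_ ?_
  · intro r h0 h1
    have := c00404A (r := r) (by linarith) (by linarith)
    nlinarith [this]
  · intro r h0 h1
    have h2 : r ≤ 201 / 1000 := by nlinarith
    have := c00404B0 (r := r) (by linarith) (by linarith)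
    nlinarith [this]
  · intro r h0 h1
    have h2 : r ≤ 201 / 1000 := by nlinarith
    have := c00404C0 (r := r) (by linarith) (by linarith)
    nlinarith [this]
  · intro r h0 h1 h2
    have h3 : 251 / 1250 ≤ r := by nlinarith
    have := c00404B (r := r) (by linarith) (by linarith)
    nlinarith [this]
  · intro r h0 h1 h2
    have h3 : 251 / 1250 ≤ r := by nlinarith
    have := c00404C (r := r) (by linarith) (by linarith)
    nlinarith [this]

/-- `c(w) = 0.706 - 0.2135 w` for all caps `≤ 0.0604` -/
theorem isC00604 : IsC 0.0604 0.706 0.2135 := by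
  refine isC_of (by norm_num) (by norm_num) ?_ ?_ ?_ ?_ ?_
  · intro r h0 h1
    have := c00604A (r := r) (by linarith) (by linarith)
    nlinarith [this]
  · intro r h0 h1
    have h2 : r ≤ 1229 / 5000 := by nlinarith
    have := c00604B0 (r := r) (by linarith) (by linarith)
    nlinarith [this]
  · intro r h0 h1
    have h2 : r ≤ 1229 / 5000 := by nlinarith
    have := c00604C0 (r := r) (by linarith) (by linarith)
    nlinarith [this]
  · intro r h0 h1 h2
    have h3 : 307 / 1250 ≤ r := by nlinarith
    have := c00604B (r := r) (by linarith) (by linarith)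
    nlinarith [this]
  · intro r h0 h1 h2
    have h3 : 307 / 1250 ≤ r := by nlinarith
    have := c00604C (r := r) (by linarith) (by linarith)
    nlinarith [this]

/-- `c(w) = 0.6995 - 0.208 w` for all caps `≤ 0.0604` -/
theorem isC00604b : IsC 0.0604 0.6995 0.208 := by
  refine isC_of (by norm_num) (by norm_num) ?_ ?_ ?_ ?_ ?_
  · intro r h0 h1
    have := c00604bA (r := r) (by linarith) (by linarith)
    nlinarith [this]
  · intro r h0 h1
    have h2 : r ≤ 1229 / 5000 := by nlinarith
    have := c00604bB0 (r := r) (by linarith) (by linarith)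
    nlinarith [this]
  · intro r h0 h1
    have h2 : r ≤ 1229 / 5000 := by nlinarith
    have := c00604bC0 (r := r) (by linarith) (by linarith)
    nlinarith [this]
  · intro r h0 h1 h2
    have h3 : 307 / 1250 ≤ r := by nlinarith
    have := c00604bB (r := r) (by linarith) (by linarith)
    nlinarith [this]
  · intro r h0 h1 h2
    have h3 : 307 / 1250 ≤ r := by nlinarith
    have := c00604bC (r := r) (by linarith) (by linarith)
    nlinarith [this]

/-- `c(w) = 0.6835 - 0.1945 w` for all caps `≤ 0.0904` -/
theorem isC00904 : IsC 0.0904 0.6835 0.1945 := by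
  refine isC_of (by norm_num) (by norm_num) ?_ ?_ ?_ ?_ ?_
  · intro r h0 h1
    have := c00904A (r := r) (by linarith) (by linarith)
    nlinarith [this]
  · intro r h0 h1
    have h2 : r ≤ 3007 / 10000 := by nlinarith
    have := c00904B0 (r := r) (by linarith) (by linarith)
    nlinarith [this]
  · intro r h0 h1
    have h2 : r ≤ 3007 / 10000 := by nlinarith
    have := c00904C0 (r := r) (by linarith) (by linarith)
    nlinarith [this]
  · intro r h0 h1 h2
    have h3 : 601 / 2000 ≤ r := by nlinarith
    have := c00904B (r := r) (by linarith) (by linarith)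
    nlinarith [this]
  · intro r h0 h1 h2
    have h3 : 601 / 2000 ≤ r := by nlinarith
    have := c00904C (r := r) (by linarith) (by linarith)
    nlinarith [this]

/-- `c(w) = 0.6645 - 0.1785 w` for all caps `≤ 0.12` -/
theorem isC012 : IsC 0.12 0.6645 0.1785 := by
  refine isC_of (by norm_num) (by norm_num) ?_ ?_ ?_ ?_ ?_
  · intro r h0 h1
    have := c012A (r := r) (by linarith) (by linarith)
    nlinarith [this]
  · intro r h0 h1
    have h2 : r ≤ 693 / 2000 := by nlinarith
    have := c012B0 (r := r) (by linarith) (by linarith)
    nlinarith [this]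
  · intro r h0 h1
    have h2 : r ≤ 693 / 2000 := by nlinarith
    have := c012C0 (r := r) (by linarith) (by linarith)
    nlinarith [this]
  · intro r h0 h1 h2
    have h3 : 3463 / 10000 ≤ r := by nlinarith
    have := c012B (r := r) (by linarith) (by linarith)
    nlinarith [this]
  · intro r h0 h1 h2
    have h3 : 3463 / 10000 ≤ r := by nlinarith
    have := c012C (r := r) (by linarith) (by linarith)
    nlinarith [this]

/-- `c(w) = 0.6585 - 0.1735 w` for all caps `≤ 0.13` -/
theorem isC013 : IsC 0.13 0.6585 0.1735 := by
  refine isC_of (by norm_num) (by norm_num) ?_ ?_ ?_ ?_ ?_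
  · intro r h0 h1
    have := c013A (r := r) (by linarith) (by linarith)
    nlinarith [this]
  · intro r h0 h1
    have h2 : r ≤ 1803 / 5000 := by nlinarith
    have := c013B0 (r := r) (by linarith) (by linarith)
    nlinarith [this]
  · intro r h0 h1
    have h2 : r ≤ 1803 / 5000 := by nlinarith
    have := c013C0 (r := r) (by linarith) (by linarith)
    nlinarith [this]
  · intro r h0 h1 h2
    have h3 : 901 / 2500 ≤ r := by nlinarith
    have := c013B (r := r) (by linarith) (by linarith)
    nlinarith [this]
  · intro r h0 h1 h2
    have h3 : 901 / 2500 ≤ r := by nlinarith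
    have := c013C (r := r) (by linarith) (by linarith)
    nlinarith [this]

end Helper92.IsC
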