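import Pool.Agent.Helper92.MEI.R7d

/-!
# Project MEI (M2): the credit of the walls, pointwise

In the strip of a wall the two full nodes give `G + P + (1 - DF) w - 2 ρ √w ≤ Y` besides the
load `G + (1 - D) w ≤ Y` (`P` = the caps which are paid by the scaled certificate, `ρ` = the leak
which does not fit). `f4_pt`: the mixture with weight `τ` has the credit
`(A / m) (τ P - τ² ρ² / β)`.
-/

set_option autoImplicit false

namespace Helper92.MEI

open Helper78.MEI Helper93.MEI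

/-- a lower bound of `ff` from the two branches, with any sign of the value -/
theorem ff_of_two {A X w B : ℝ} (hw : w < 2)
    (h1 : B ≤ A * X - 0.127 * w / (1 - w / 2))
    (h2 : B * (1 - w / 2) ≤ A * X - 0.127 * w) : B ≤ ff A X w := by
  have d : 0 < 1 - w / 2 := by linarith
  unfold ff
  exact le_min h1 ((le_div_iff₀ d).2 h2)

theorem amgm {x y β L u : ℝ} (hβ : 0 < β) (hL : y ^ 2 / β ≤ L) (hx : β ≤ x) (hu : 0 ≤ u ^ 2) :
    0 ≤ x * u ^ 2 - 2 * y * u + L := by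
  have k1 : 0 ≤ (β * u - y) ^ 2 / β := div_nonneg (sq_nonneg _) hβ.le
  have e : (β * u - y) ^ 2 / β = β * u ^ 2 - 2 * y * u + y ^ 2 / β := by
    field_simp
    ring
  rw [e] at k1
  have k2 := mul_le_mul_of_nonneg_right hx hu
  linarith

/-- **the credit of the walls**, `w ≤ wb` -/
theorem f4_pt {A m G P D DF ρ τ β L w Y wb : ℝ} (hA : 0 < A) (hm : 0 < m)
    (hw : 0 ≤ w) (hwb : w ≤ wb) (hb2 : wb < 2) (hτ0 : 0 ≤ τ) (hτ1 : τ ≤ 1)
    (hGP : 0 ≤ G + P) (hF : G + P + (1 - DF) * w - 2 * ρ * √w ≤ Y)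
    (hL : G + (1 - D) * w ≤ Y) (hβ : 0 < β) (hL' : (τ * ρ) ^ 2 / β ≤ L)
    (h1 : β ≤ 1 - D - τ * (DF - D) - m - m / A * (0.127 / (1 - wb / 2)))
    (h2 : β ≤ 1 - D - τ * (DF - D) - m - m / A * 0.127 - (1 - τ) * P / 2 - L / 2) :
    A * (G / m) - -(A / m * (τ * P - L)) ≤ ff A (Y / m - w) w := by
  have hw2 : w < 2 := by linarith
  have d : 0 < 1 - w / 2 := by linarith
  have db : 0 < 1 - wb / 2 := by linarith
  obtain ⟨u, hu⟩ : ∃ u, u = √w := ⟨_, rfl⟩
  have hu2 : w = u ^ 2 := by rw [hu, Real.sq_sqrt hw]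
  have hu0 : 0 ≤ u ^ 2 := sq_nonneg u
  rw [← hu] at hF
  -- the mixture
  have hM : G + τ * P + (1 - D - τ * (DF - D)) * w - 2 * (τ * ρ) * u ≤ Y := by
    have k1 := mul_le_mul_of_nonneg_left hF hτ0
    have k2 := mul_le_mul_of_nonneg_left hL (sub_nonneg.2 hτ1)
    linarith
  have hAm : 0 < A / m := div_pos hA hm
  have hX : (G + τ * P + (1 - D - τ * (DF - D) - m) * w - 2 * (τ * ρ) * u) / m ≤ Y / m - w := by
    have e : Y / m - w = (Y - m * w) / m := by field_simp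
    rw [e]
    apply div_le_div_of_nonneg_right _ hm.le
    linarith
  have hAX := mul_le_mul_of_nonneg_left hX hA.le
  have e0 : A * ((G + τ * P + (1 - D - τ * (DF - D) - m) * w - 2 * (τ * ρ) * u) / m) =
      A / m * (G + τ * P + (1 - D - τ * (DF - D) - m) * w - 2 * (τ * ρ) * u) := by ring
  rw [e0] at hAX
  have e1 : A * (G / m) - -(A / m * (τ * P - L)) = A / m * (G + τ * P - L) := by ring
  rw [e1]
  refine ff_of_two hw2 ?_ ?_
  · refine le_trans ?_ (sub_le_sub_right hAX _)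
    have hk : 0.127 * w / (1 - w / 2) ≤ 0.127 / (1 - wb / 2) * w := by
      rw [div_mul_eq_mul_div]
      exact div_le_div_of_nonneg_left (by positivity) db (by linarith)
    have k1 := amgm (u := u) hβ hL' h1 hu0
    have k2 := mul_nonneg hAm.le k1
    have e2 : A / m * ((1 - D - τ * (DF - D) - m - m / A * (0.127 / (1 - wb / 2))) * u ^ 2
        - 2 * (τ * ρ) * u + L) =
        A / m * ((1 - D - τ * (DF - D) - m) * u ^ 2 - 2 * (τ * ρ) * u + L)
          - 0.127 / (1 - wb / 2) * u ^ 2 := by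
      field_simp
      ring
    rw [e2] at k2
    rw [hu2] at hk ⊢
    linarith
  · have k1 := amgm (u := u) hβ hL' h2 hu0
    have k2 := mul_nonneg hAm.le k1
    have k3 : 0 ≤ A / m * ((G + P) * (w / 2)) :=
      mul_nonneg hAm.le (mul_nonneg hGP (by linarith))
    have e2 : A / m * ((1 - D - τ * (DF - D) - m - m / A * 0.127 - (1 - τ) * P / 2 - L / 2)
        * u ^ 2 - 2 * (τ * ρ) * u + L) =
        A / m * ((1 - D - τ * (DF - D) - m - (1 - τ) * P / 2 - L / 2) * u ^ 2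
          - 2 * (τ * ρ) * u + L) - 0.127 * u ^ 2 := by
      field_simp
      ring
    rw [e2] at k2
    rw [hu2] at hAX k3 ⊢
    linarith

/-- the load excludes `w ≥ wb` -/
theorem f4_out {m G P D w Y wb ow : ℝ} (hm : 0 < m) (hGP : 0 ≤ G + P) (hwb : wb ≤ w)
    (hL : G + (1 - D) * w ≤ Y) (hO : Y / m - w ≤ ow) (ha : 0 ≤ 1 - D - m)
    (hb : P + m * ow < (1 - D - m) * wb) : False := by
  have k1 := mul_le_mul_of_nonneg_left hwb ha
  rw [sub_le_iff_le_add, div_le_iff₀ hm] at hO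
  linarith

/-- **the credit of the walls**, all `w` -/
theorem f4_all {A m G P D DF ρ τ β L w Y wb ow : ℝ} (hA : 0 < A) (hm : 0 < m)
    (hw : 0 ≤ w) (hb2 : wb < 2) (hτ0 : 0 ≤ τ) (hτ1 : τ ≤ 1)
    (hGP : 0 ≤ G + P) (hF : G + P + (1 - DF) * w - 2 * ρ * √w ≤ Y)
    (hL : G + (1 - D) * w ≤ Y) (hO : Y / m - w ≤ ow) (hβ : 0 < β)
    (hL' : (τ * ρ) ^ 2 / β ≤ L)
    (h1 : β ≤ 1 - D - τ * (DF - D) - m - m / A * (0.127 / (1 - wb / 2)))
    (h2 : β ≤ 1 - D - τ * (DF - D) - m - m / A * 0.127 - (1 - τ) * P / 2 - L / 2)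
    (ha : 0 ≤ 1 - D - m) (hb : P + m * ow < (1 - D - m) * wb) :
    A * (G / m) - -(A / m * (τ * P - L)) ≤ ff A (Y / m - w) w := by
  rcases le_total w wb with h | h
  · exact f4_pt hA hm hw h hb2 hτ0 hτ1 hGP hF hL hβ hL' h1 h2
  · exact (f4_out hm hGP h hL hO ha hb).elim

end Helper92.MEI
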