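import Pool.Agent.Helper93.MEI.Wr2

/-!
# Project MEI (M2): rule R7 with end point checks

On an interval `[u, v]` of `w` every alternative is checked at the two end points only.
-/

set_option autoImplicit false

namespace Helper92.MEI

open Helper78.MEI Helper93.MEI

/-- the strip function of the range -/
noncomputable def phs (m μ c0 c1 u : ℝ) : ℝ := (1 - m) * u + 2 * μ * ((c0 - c1 * u) * √u)

/-- `(c0 - c1 u) √u` increases on `[0, c0 / (3 c1)]` -/
theorem css_mono {c0 c1 u w : ℝ} (h1 : 0 ≤ c1) (hu : 0 ≤ u) (huw : u ≤ w) (hw : 3 * c1 * w ≤ c0) :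
    (c0 - c1 * u) * √u ≤ (c0 - c1 * w) * √w := by
  obtain ⟨r, hr⟩ : ∃ r, r = √u := ⟨_, rfl⟩
  obtain ⟨R, hR⟩ : ∃ R, R = √w := ⟨_, rfl⟩
  have hr0 : 0 ≤ r := by rw [hr]; exact Real.sqrt_nonneg _
  have hR0 : 0 ≤ R := by rw [hR]; exact Real.sqrt_nonneg _
  have hr2 : u = r ^ 2 := by rw [hr, Real.sq_sqrt hu]
  have hR2 : w = R ^ 2 := by rw [hR, Real.sq_sqrt (hu.trans huw)]
  have hrR : r ≤ R := by rw [hr, hR]; exact Real.sqrt_le_sqrt huw
  rw [← hr, ← hR, hr2, hR2]
  have k1 : 0 ≤ (R - r) * (c0 - c1 * (r ^ 2 + r * R + R ^ 2)) := by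
    refine mul_nonneg (by linarith) ?_
    have k2 : r ^ 2 + r * R + R ^ 2 ≤ 3 * R ^ 2 := by nlinarith
    have k3 := mul_le_mul_of_nonneg_left k2 h1
    rw [hR2] at hw
    linarith
  nlinarith

theorem phs_mono {m μ c0 c1 u w : ℝ} (hm : m ≤ 1) (hμ : 0 ≤ μ) (h1 : 0 ≤ c1) (hu : 0 ≤ u)
    (huw : u ≤ w) (hw : 3 * c1 * w ≤ c0) : phs m μ c0 c1 u ≤ phs m μ c0 c1 w := by
  have k1 := mul_le_mul_of_nonneg_left huw (sub_nonneg.2 hm)
  have k2 := mul_le_mul_of_nonneg_left (css_mono h1 hu huw hw) (by linarith : 0 ≤ 2 * μ)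
  unfold phs
  linarith

theorem phs_chord {m μ c0 c1 u w v : ℝ} (hμ : 0 ≤ μ) (h0 : 0 ≤ u) (h1 : u ≤ w) (h2 : w ≤ v)
    (hc0 : 0 ≤ c0) (hc1 : 0 ≤ c1) :
    (v - w) * phs m μ c0 c1 u + (w - u) * phs m μ c0 c1 v ≤ (v - u) * phs m μ c0 c1 w := by
  have k := mul_le_mul_of_nonneg_left (cw_chord h0 h1 h2 hc0 hc1) (by linarith : 0 ≤ 2 * μ)
  unfold phs
  nlinarith

/-- a quadratic below its chord plus the second order term -/
theorem quad_chord {a b c u v w s B : ℝ} (huw : u ≤ w) (hwv : w ≤ v)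
    (hs0 : 0 ≤ s) (hs : -(a * (v - u) ^ 2 / 4) ≤ s)
    (hu : a * u ^ 2 + b * u + c + s ≤ B) (hv : a * v ^ 2 + b * v + c + s ≤ B) :
    a * w ^ 2 + b * w + c ≤ B := by
  rcases eq_or_lt_of_le (huw.trans hwv) with e | hlt
  · have e1 : w = v := le_antisymm hwv (e ▸ huw)
    rw [e1]
    linarith
  · have hl : 0 < v - u := by linarith
    have s1 := mul_le_mul_of_nonneg_left hu (show 0 ≤ v - w by linarith)
    have s2 := mul_le_mul_of_nonneg_left hv (show 0 ≤ w - u by linarith)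
    -- `-a (w-u)(v-w) ≤ s`
    have s3 : 0 ≤ (w - u) * (v - w) := mul_nonneg (by linarith) (by linarith)
    have s4 : (w - u) * (v - w) ≤ (v - u) ^ 2 / 4 := by nlinarith [sq_nonneg ((w - u) - (v - w))]
    have s5 : -(a * ((w - u) * (v - w))) ≤ s := by
      rcases le_total 0 a with ha | ha
      · have := mul_nonneg ha s3
        linarith
      · have := mul_le_mul_of_nonneg_left s4 (neg_nonneg.2 ha)
        linarith
    have s6 := mul_le_mul_of_nonneg_left s5 hl.le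
    have key : (v - u) * (a * w ^ 2 + b * w + c) ≤ (v - u) * B := by
      have e : (v - u) * (a * w ^ 2 + b * w + c) =
          (v - w) * (a * u ^ 2 + b * u + c) + (w - u) * (a * v ^ 2 + b * v + c)
            + (v - u) * -(a * ((w - u) * (v - w))) := by ring
      rw [e]
      nlinarith [s1, s2, s6]
    exact le_of_mul_le_mul_left key hl

/-- `ff` at one point from a bound of the two branches -/
theorem ff_of_num {A X w B n : ℝ} (hA : 0 ≤ A) (hw0 : 0 ≤ w) (hw : w < 2) (hn : -n ≤ X)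
    (hn0 : 0 ≤ n)
    (hk : B * (1 - w / 2) ≤ A * X * (1 - w / 2) - 0.127 * w - A * n * (w / 2)) :
    B ≤ ff A X w := by
  have d : 0 < 1 - w / 2 := by linarith
  have k1 : 0 ≤ A * n * (w / 2) := by positivity
  unfold ff
  refine le_min ?_ ?_
  · rw [le_sub_iff_add_le, ← le_sub_iff_add_le', div_le_iff₀ d]
    nlinarith
  · rw [le_div_iff₀ d]
    have k2 : A * -n * (w / 2) ≤ A * X * (w / 2) :=
      mul_le_mul_of_nonneg_right (mul_le_mul_of_nonneg_left hn hA) (by linarith)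
    nlinarith

/-- one end point, LOAD -/
def Ei (A c n w s om : ℝ) : Prop :=
  A * c * w * (1 - w / 2) + 0.127 * w + A * n * (w / 2) + s ≤ om * (1 - w / 2)

/-- one end point, STRIPS -/
def Eii (A m C E f w om : ℝ) : Prop :=
  (0.127 * w + A * pp ((C - f) / m) * (w / 2)) + A * ((E - f) / m) * (1 - w / 2) ≤
    om * (1 - w / 2)

/-- **rule R7, pointwise, end point form** -/
theorem r7_int2 {A m G C D E ow w u v Y fu fv μ c0 c1 om : ℝ} (hA : 0 ≤ A) (hm : 0 < m)
    (hm1 : m ≤ 1) (hμ : 0 ≤ μ) (hc0 : 0 ≤ c0) (hc1 : 0 ≤ c1) (hu : 0 ≤ u) (huw : u ≤ w)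
    (hwv : w ≤ v) (hv : v < 2) (hL : G + (1 - D) * w ≤ Y)
    (hS : -C + w + 2 * μ * ((c0 - c1 * w) * √w) ≤ Y) (hO : Y / m - w ≤ ow)
    (hE : G ≤ -C + E) (hfu : fu ≤ phs m μ c0 c1 u) (hfv : fv ≤ phs m μ c0 c1 v)
    (hk : (∃ s, 0 ≤ s ∧
          A * ((1 - (1 - D) / m) * (v - u) + (pp ((C - fu) / m) - pp ((C - fv) / m))) *
            (v - u) / 8 ≤ s ∧ Ei A (1 - (1 - D) / m) (pp ((C - fu) / m)) u s om ∧
          Ei A (1 - (1 - D) / m) (pp ((C - fv) / m)) v s om) ∨
        (Eii A m C E fu u om ∧ Eii A m C E fv v om) ∨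
        (3 * c1 * w ≤ c0 ∧ C + m * ow < fu)) :
    A * (G / m) - om ≤ ff A (Y / m - w) w := by
  have hw0 : 0 ≤ w := hu.trans huw
  have hv0 : 0 ≤ v := hw0.trans hwv
  have d : 0 < 1 - w / 2 := by linarith
  -- the strip bound of `X` at `w`
  have hXs : (phs m μ c0 c1 w - C) / m ≤ Y / m - w := by
    have e : Y / m - w = (Y - m * w) / m := by field_simp
    rw [e]
    apply div_le_div_of_nonneg_right _ hm.le
    unfold phs
    linarith
  have hch := phs_chord (m := m) hμ hu huw hwv hc0 hc1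
  -- chord form
  have hfch : (v - w) * fu + (w - u) * fv ≤ (v - u) * phs m μ c0 c1 w := by
    have k1 := mul_le_mul_of_nonneg_left hfu (show 0 ≤ v - w by linarith)
    have k2 := mul_le_mul_of_nonneg_left hfv (show 0 ≤ w - u by linarith)
    linarith
  have hXch : (v - w) * ((fu - C) / m) + (w - u) * ((fv - C) / m) ≤
      (v - u) * (Y / m - w) := by
    have k1 := mul_le_mul_of_nonneg_left hXs (show 0 ≤ v - u by linarith)
    have e : (v - w) * ((fu - C) / m) + (w - u) * ((fv - C) / m) =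
        ((v - w) * fu + (w - u) * fv - (v - u) * C) / m := by
      field_simp
      ring
    have e2 : (v - u) * ((phs m μ c0 c1 w - C) / m) =
        ((v - u) * phs m μ c0 c1 w - (v - u) * C) / m := by
      field_simp
    rw [e2] at k1
    rw [e]
    refine le_trans (div_le_div_of_nonneg_right ?_ hm.le) k1
    linarith
  rcases hk with ⟨s, hs0, hs, ku, kv⟩ | ⟨ku, kv⟩ | ⟨hc, hk⟩
  · -- LOAD
    obtain ⟨c, hc⟩ : ∃ c, c = 1 - (1 - D) / m := ⟨_, rfl⟩
    obtain ⟨nu, hnu⟩ : ∃ n, n = pp ((C - fu) / m) := ⟨_, rfl⟩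
    obtain ⟨nv, hnv⟩ : ∃ n, n = pp ((C - fv) / m) := ⟨_, rfl⟩
    rw [← hc, ← hnu, ← hnv] at hs
    rw [← hc, ← hnu] at ku
    rw [← hc, ← hnv] at kv
    have hnu0 : 0 ≤ nu := by rw [hnu]; exact pp_nonneg _
    have hnv0 : 0 ≤ nv := by rw [hnv]; exact pp_nonneg _
    have hnu1 : -nu ≤ (fu - C) / m := by
      have := le_pp ((C - fu) / m)
      have e : (fu - C) / m = -((C - fu) / m) := by ring
      rw [hnu, e]
      linarith
    have hnv1 : -nv ≤ (fv - C) / m := by
      have := le_pp ((C - fv) / m)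
      have e : (fv - C) / m = -((C - fv) / m) := by ring
      rw [hnv, e]
      linarith
    have hX2 : G / m - c * w ≤ Y / m - w := by
      have e : G / m - c * w = (G + (1 - D) * w) / m - w := by
        rw [hc, add_div]
        ring
      rw [e]
      have := div_le_div_of_nonneg_right hL hm.le
      linarith
    unfold Ei at ku kv
    rcases eq_or_lt_of_le (huw.trans hwv) with e | hlt
    · have e1 : w = v := le_antisymm hwv (e ▸ huw)
      have e2 : w = u := le_antisymm (hwv.trans e.ge) huw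
      rw [← e1] at kv
      have hn : -nv ≤ Y / m - w := by
        refine hnv1.trans (le_trans ?_ hXs)
        apply div_le_div_of_nonneg_right _ hm.le
        rw [← e1] at hfv
        linarith
      refine ff_of_num hA hw0 (by linarith) hn hnv0 ?_
      have k1 : A * (G / m - c * w) ≤ A * (Y / m - w) := mul_le_mul_of_nonneg_left hX2 hA
      have k2 := mul_le_mul_of_nonneg_right k1 d.le
      linarith
    · have hl : 0 < v - u := by linarith
      -- the chord of `n`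
      obtain ⟨n, hn⟩ : ∃ n, n = ((v - w) * nu + (w - u) * nv) / (v - u) := ⟨_, rfl⟩
      have hnm : n * (v - u) = (v - w) * nu + (w - u) * nv := by
        rw [hn, div_mul_cancel₀ _ hl.ne']
      have hn0 : 0 ≤ n := by
        rw [hn]
        exact div_nonneg (add_nonneg (mul_nonneg (by linarith) hnu0)
          (mul_nonneg (by linarith) hnv0)) hl.le
      have hnX : -n ≤ Y / m - w := by
        have k1 := mul_le_mul_of_nonneg_left hnu1 (show 0 ≤ v - w by linarith)
        have k2 := mul_le_mul_of_nonneg_left hnv1 (show 0 ≤ w - u by linarith)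
        have k3 : (v - u) * -n ≤ (v - u) * (Y / m - w) := by
          refine le_trans ?_ hXch
          linarith
        exact le_of_mul_le_mul_left k3 hl
      refine ff_of_num hA hw0 (by linarith) hnX hn0 ?_
      have k1 : A * (G / m - c * w) ≤ A * (Y / m - w) := mul_le_mul_of_nonneg_left hX2 hA
      have k2 := mul_le_mul_of_nonneg_right k1 d.le
      -- the quadratic `A c w (1 - w/2) + .127 w + A n(w) w/2`
      obtain ⟨q, hq⟩ : ∃ q, q = (nv - nu) / (v - u) := ⟨_, rfl⟩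
      have hqm : q * (v - u) = nv - nu := by rw [hq, div_mul_cancel₀ _ hl.ne']
      have en : n = nu + q * (w - u) := by
        have : n * (v - u) = (nu + q * (w - u)) * (v - u) := by
          rw [hnm]
          linear_combination (-(w - u)) * hqm
        exact mul_right_cancel₀ hl.ne' this
      have env : nv = nu + q * (v - u) := by linarith
      have key := quad_chord (a := -(A * c) / 2 + A * q / 2)
        (b := A * c + 0.127 + A * (nu - q * u) / 2 + om / 2) (c := 0) (B := om)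
        (s := s) huw hwv hs0
        (by
          refine le_trans (le_of_eq ?_) hs
          linear_combination (-(A * (v - u) / 8)) * hqm)
        (by linarith [ku])
        (by
          rw [env] at kv
          linarith [kv])
      rw [en]
      linarith [key, k2]
  · -- STRIPS
    unfold Eii at ku kv
    refine ff_conc (X1 := (fu - C) / m) (X2 := (fv - C) / m) hA huw hwv hv ?_ ?_ ?_ ?_
    · linarith
    · intro e
      refine le_trans ?_ hXs
      apply div_le_div_of_nonneg_right _ hm.le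
      rw [e]
      linarith
    · refine ff_of_num hA hu (by linarith) (n := pp ((C - fu) / m)) ?_ (pp_nonneg _) ?_
      · have := le_pp ((C - fu) / m)
        have e : (fu - C) / m = -((C - fu) / m) := by ring
        rw [e]
        linarith
      · have k1 : G / m ≤ (-C + E) / m := div_le_div_of_nonneg_right hE hm.le
        have e : (-C + E) / m = (fu - C) / m + (E - fu) / m := by ring
        rw [e] at k1
        have du : 0 < 1 - u / 2 := by linarith
        have k2 := mul_le_mul_of_nonneg_right (mul_le_mul_of_nonneg_left k1 hA) du.le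
        linarith
    · refine ff_of_num hA hv0 hv (n := pp ((C - fv) / m)) ?_ (pp_nonneg _) ?_
      · have := le_pp ((C - fv) / m)
        have e : (fv - C) / m = -((C - fv) / m) := by ring
        rw [e]
        linarith
      · have k1 : G / m ≤ (-C + E) / m := div_le_div_of_nonneg_right hE hm.le
        have e : (-C + E) / m = (fv - C) / m + (E - fv) / m := by ring
        rw [e] at k1
        have dv : 0 < 1 - v / 2 := by linarith
        have k2 := mul_le_mul_of_nonneg_right (mul_le_mul_of_nonneg_left k1 hA) dv.le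
        linarith
  · exfalso
    have k0 := phs_mono (m := m) hm1 hμ hc1 hu huw hc
    have k1 : (phs m μ c0 c1 w - C) / m ≤ ow := hXs.trans hO
    rw [div_le_iff₀ hm] at k1
    linarith

/-! ### numbers for a cell of directions -/

theorem pp_num {m C f m0 C1 : ℝ} (hm0 : 0 < m0) (hm : m0 ≤ m) (hC : C ≤ C1) :
    pp ((C - f) / m) ≤ pp (C1 - f) / m0 := by
  refine max_le ?_ (div_nonneg (pp_nonneg _) hm0.le)
  have k0 := pp_nonneg (C1 - f)
  have k1 : C - f ≤ pp (C1 - f) := le_trans (by linarith) (le_pp _)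
  calc (C - f) / m ≤ pp (C1 - f) / m := div_le_div_of_nonneg_right k1 (hm0.trans_le hm).le
    _ ≤ pp (C1 - f) / m0 := div_le_div_of_nonneg_left k0 hm0 hm

theorem c_num {m D m1 D1 : ℝ} (hm0 : 0 < m) (hm1 : m ≤ m1) (hD : D ≤ D1) (hD1 : D1 ≤ 1) :
    1 - (1 - D) / m ≤ 1 - (1 - D1) / m1 := by
  have k1 : (1 - D1) / m1 ≤ (1 - D1) / m :=
    div_le_div_of_nonneg_left (by linarith) hm0 hm1
  have k2 : (1 - D1) / m ≤ (1 - D) / m := div_le_div_of_nonneg_right (by linarith) hm0.le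
  linarith

theorem pp_lip {x y z : ℝ} (h : x - y ≤ z) (hz : 0 ≤ z) : pp x - pp y ≤ z := by
  have h1 := le_pp y
  have h2 := pp_nonneg y
  have : pp x ≤ z + pp y := max_le (by linarith) (by linarith)
  linarith

/-- the second order term, numbers -/
theorem sg_num {A c m C fu fv u v m0 C1 cb s : ℝ} (hA : 0 ≤ A) (huv : u ≤ v) (hm0 : 0 < m0)
    (hm : m0 ≤ m) (hC : C ≤ C1) (hc : c ≤ cb)
    (hs : A * (cb * (v - u) + min (pp (C1 - fu) / m0) (pp (fv - fu) / m0)) * (v - u) / 8 ≤ s) :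
    A * (c * (v - u) + (pp ((C - fu) / m) - pp ((C - fv) / m))) * (v - u) / 8 ≤ s := by
  have hd : 0 ≤ v - u := by linarith
  have hmp := hm0.trans_le hm
  have k1 : pp ((C - fu) / m) - pp ((C - fv) / m) ≤ pp (C1 - fu) / m0 := by
    have h1 := pp_num (f := fu) hm0 hm hC
    have h2 := pp_nonneg ((C - fv) / m)
    linarith
  have k2 : pp ((C - fu) / m) - pp ((C - fv) / m) ≤ pp (fv - fu) / m0 := by
    refine pp_lip ?_ (div_nonneg (pp_nonneg _) hm0.le)
    have e : (C - fu) / m - (C - fv) / m = (fv - fu) / m := by ring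
    rw [e]
    calc (fv - fu) / m ≤ pp (fv - fu) / m := div_le_div_of_nonneg_right (le_pp _) hmp.le
      _ ≤ pp (fv - fu) / m0 := div_le_div_of_nonneg_left (pp_nonneg _) hm0 hm
  have k3 := mul_le_mul_of_nonneg_right hc hd
  have k4 : c * (v - u) + (pp ((C - fu) / m) - pp ((C - fv) / m)) ≤
      cb * (v - u) + min (pp (C1 - fu) / m0) (pp (fv - fu) / m0) :=
    add_le_add k3 (le_min k1 k2)
  have k5 := mul_le_mul_of_nonneg_right (mul_le_mul_of_nonneg_left k4 hA) hd
  linarith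

theorem Ei_num {A c n w s om cb N : ℝ} (hA : 0 ≤ A) (hw0 : 0 ≤ w) (hw : w < 2)
    (hc : c ≤ cb) (hn : n ≤ N) (hk : Ei A cb N w s om) : Ei A c n w s om := by
  have d : 0 ≤ 1 - w / 2 := by linarith
  have k1 := mul_le_mul_of_nonneg_right (mul_le_mul_of_nonneg_right
    (mul_le_mul_of_nonneg_left hc hA) hw0) d
  have k2 := mul_le_mul_of_nonneg_right (mul_le_mul_of_nonneg_left hn hA)
    (show 0 ≤ w / 2 by linarith)
  unfold Ei at hk ⊢
  linarith

theorem Eii_num {A m C E f w om m0 C1 E1 : ℝ} (hA : 0 ≤ A) (hm0 : 0 < m0) (hm : m0 ≤ m)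
    (hC : C ≤ C1) (hE : E ≤ E1) (hw0 : 0 ≤ w) (hw : w < 2)
    (hk : 0.127 * w + A * (pp (C1 - f) / m0) * (w / 2) + A * (pp (E1 - f) / m0) * (1 - w / 2) ≤
      om * (1 - w / 2)) : Eii A m C E f w om := by
  have d : 0 ≤ 1 - w / 2 := by linarith
  have h1 := pp_num (f := f) hm0 hm hC
  have h2 : (E - f) / m ≤ pp (E1 - f) / m0 := (le_pp _).trans (pp_num (f := f) hm0 hm hE)
  have k1 := mul_le_mul_of_nonneg_right (mul_le_mul_of_nonneg_left h1 hA)
    (show 0 ≤ w / 2 by linarith)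
  have k2 := mul_le_mul_of_nonneg_right (mul_le_mul_of_nonneg_left h2 hA) d
  unfold Eii
  linarith

theorem Eiii_num {m C ow f m1 C1 o1 : ℝ} (hm : 0 ≤ m) (hm1 : m ≤ m1) (hC : C ≤ C1)
    (ho : ow ≤ o1) (ho0 : 0 ≤ o1) (hk : C1 + m1 * o1 < f) : C + m * ow < f := by
  have k1 := mul_le_mul_of_nonneg_left ho hm
  have k2 := mul_le_mul_of_nonneg_right hm1 ho0
  linarith

theorem phs_num {m μ c0 c1 u m1 μ0 r : ℝ} (hm : m ≤ m1) (hμ : μ0 ≤ μ) (hμ0 : 0 ≤ μ0)
    (hu : 0 ≤ u) (hr : 0 ≤ r) (hr2 : r ^ 2 ≤ u) (hc : c1 * u ≤ c0) :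
    (1 - m1) * u + 2 * μ0 * ((c0 - c1 * u) * r) ≤ phs m μ c0 c1 u := by
  have k1 := mul_le_mul_of_nonneg_right (sub_le_sub_left hm 1) hu
  have k2 : r ≤ √u := Real.le_sqrt_of_sq_le hr2
  have k3 := mul_le_mul_of_nonneg_left k2 (sub_nonneg.2 hc)
  have k4 : 0 ≤ (c0 - c1 * u) * r := mul_nonneg (sub_nonneg.2 hc) hr
  have k5 : μ0 * ((c0 - c1 * u) * r) ≤ μ * ((c0 - c1 * u) * √u) :=
    mul_le_mul hμ k3 k4 (hμ0.trans hμ)
  unfold phs
  linarith

/-- **all numbers of one interval of a cell** -/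
def Rb (A m0 m1 C1 D1 E1 o1 fu fv u v om : ℝ) : Prop :=
  (∃ s, 0 ≤ s ∧ A * ((1 - (1 - D1) / m1) * (v - u) +
      min (pp (C1 - fu) / m0) (pp (fv - fu) / m0)) * (v - u) / 8 ≤ s ∧
      Ei A (1 - (1 - D1) / m1) (pp (C1 - fu) / m0) u s om ∧
      Ei A (1 - (1 - D1) / m1) (pp (C1 - fv) / m0) v s om) ∨
    ((0.127 * u + A * (pp (C1 - fu) / m0) * (u / 2) + A * (pp (E1 - fu) / m0) * (1 - u / 2) ≤
      om * (1 - u / 2)) ∧
     (0.127 * v + A * (pp (C1 - fv) / m0) * (v / 2) + A * (pp (E1 - fv) / m0) * (1 - v / 2) ≤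
      om * (1 - v / 2))) ∨
    C1 + m1 * o1 < fu

/-- **rule R7b for a cell**: one interval -/
theorem r7b_cell {A m G C D E ow w u v Y fu fv μ c0 c1 om m0 m1 C1 D1 E1 o1 : ℝ} (hA : 0 ≤ A)
    (hm0 : 0 < m0) (hm : m0 ≤ m) (hm1 : m ≤ m1) (h1 : m ≤ 1)
    (hC : C ≤ C1) (hD : D ≤ D1) (hD1 : D1 ≤ 1) (hE : E ≤ E1) (ho : ow ≤ o1) (ho0 : 0 ≤ o1)
    (hμ : 0 ≤ μ) (hc0 : 0 ≤ c0) (hc1 : 0 ≤ c1) (hu : 0 ≤ u) (huw : u ≤ w)
    (hwv : w ≤ v) (hv : v < 2) (hc3 : 3 * c1 * w ≤ c0) (hL : G + (1 - D) * w ≤ Y)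
    (hS : -C + w + 2 * μ * ((c0 - c1 * w) * √w) ≤ Y) (hO : Y / m - w ≤ ow)
    (hG : G ≤ -C + E) (hfu : fu ≤ phs m μ c0 c1 u) (hfv : fv ≤ phs m μ c0 c1 v)
    (hk : Rb A m0 m1 C1 D1 E1 o1 fu fv u v om) :
    A * (G / m) - om ≤ ff A (Y / m - w) w := by
  have hmp := hm0.trans_le hm
  have hw0 : 0 ≤ w := hu.trans huw
  have huv := huw.trans hwv
  refine r7_int2 hA hmp h1 hμ hc0 hc1 hu huw hwv hv hL hS hO hG hfu hfv ?_ (E := E)
  rcases hk with ⟨s, hs0, hs, k1, k2⟩ | ⟨k1, k2⟩ | hk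
  · left
    have hcn := c_num hmp hm1 hD hD1
    exact ⟨s, hs0, sg_num hA huv hm0 hm hC hcn hs,
      Ei_num hA hu (by linarith) hcn (pp_num hm0 hm hC) k1,
      Ei_num hA (hw0.trans hwv) hv hcn (pp_num hm0 hm hC) k2⟩
  · right; left
    exact ⟨Eii_num hA hm0 hm hC hE hu (by linarith) k1,
      Eii_num hA hm0 hm hC hE (hw0.trans hwv) hv k2⟩
  · right; right
    exact ⟨hc3, Eiii_num hmp.le hm1 hC ho ho0 hk⟩

end Helper92.MEI
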