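import Pool.Agent.Helper78.MEI.WC7
import Pool.Agent.Helper92.MEI.R7a

/-!
# Project MEI (M2): rule R7 as a cost, end point form

`wcost_R7b`: for every direction and every `w ∈ [0, 1 + S_0]` an interval `[u, v]` with one of the
three checks, each evaluated at the two end points. `wcost_cells`: the same with the numbers of a
cell.
-/

set_option autoImplicit false

namespace Helper92.MEI

open Set Metric MeasureTheory Helper80.CW Helper82.CW Helper14.CW Helper93.MEI Helper82.M2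
open Helper14.MEI2 Pool.Agent.Helper52.MEI Pool.Agent.Helper73.MEI Pool.Agent.Helper31.SR
open Helper78.MEI
open Helper33.MEI (Wi Dl tx M3 mt mt_pos)
open scoped RealInnerProductSpace ENNReal

/-- the three checks at one point -/
def R3 (A m C D E ow fu fv u v om : ℝ) : Prop :=
  (∃ s, 0 ≤ s ∧
      A * ((1 - (1 - D) / m) * (v - u) + (pp ((C - fu) / m) - pp ((C - fv) / m))) *
        (v - u) / 8 ≤ s ∧ Ei A (1 - (1 - D) / m) (pp ((C - fu) / m)) u s om ∧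
      Ei A (1 - (1 - D) / m) (pp ((C - fv) / m)) v s om) ∨
    (Eii A m C E fu u om ∧ Eii A m C E fv v om) ∨ C + m * ow < fu

/-- **RULE R7b AS A COST** (end point form) -/
theorem wcost_R7b {a : Fin 4 → E3} {σ : Measure (E3 × E3)} {K : Set E3} {S : Fin 4 → ℝ}
    {c : Fin 4 → E3} [IsFiniteMeasure σ] (h : CN K σ a c) (v : Viol K a S)
    (τ : Equiv.Perm (Fin 4)) {A Sm c0 c1 : ℝ} (hA : 0 ≤ A) (hC : IsC Sm c0 c1)
    (hSm : ∀ k, S k ≤ Sm) (hc1 : 0 ≤ c1) (hc3 : 3 * c1 * (1 + S (τ 0)) ≤ c0)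
    {G D ω : ℝ × ℝ → ℝ} {C2 : ℝ}
    (hω : AEStronglyMeasurable ω (volume.restrict Dl)) (hωC : ∀ t ∈ Dl, |ω t| ≤ C2)
    (hR : ∀ t ∈ Dl, ∃ D1 E μ : ℝ, D t ≤ D1 ∧
      G t ≤ -(T3 t 0 * S (τ 1) + T3 t 1 * S (τ 2) + T3 t 2 * S (τ 3)) + E ∧
      0 ≤ μ ∧ (∀ k, μ ≤ T3 t k) ∧
      ∀ w, 0 ≤ w → w ≤ 1 + S (τ 0) → ∃ u v' fu fv : ℝ, 0 ≤ u ∧ u ≤ w ∧ w ≤ v' ∧ v' < 2 ∧
        fu ≤ phs (√(mt t)) μ c0 c1 u ∧ fv ≤ phs (√(mt t)) μ c0 c1 v' ∧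
        R3 A (√(mt t)) (T3 t 0 * S (τ 1) + T3 t 1 * S (τ 2) + T3 t 2 * S (τ 3)) D1 E
          (own (S (τ 0)) t) fu fv u v' (ω t)) :
    WCost a K τ A G D ((√2)⁻¹ * ∫ t in Dl, ω t * M3 t) := by
  have h' := h.perm τ
  have v' := viol_perm v τ
  have hgr := gram_of_dist h'.ha
  refine ⟨ω, own (S (τ 0)), C2, hω, hωC, fun t ht => own_nonneg (v.nn _) ht,
    own_ok h v τ, ?_, le_rfl⟩
  intro t ht q hq hX hG
  have hm : 0 < √(mt t) := Real.sqrt_pos.2 mt_pos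
  have hm1 : √(mt t) ≤ 1 := sqrt_mt_le ht
  obtain ⟨D1, E, μ, hD, hE, hμ, hM, hw⟩ := hR t ht
  have hpq := h'.hp q hq
  have h19 : ‖a (τ 0) - q‖ ^ 2 ≤ 19 / 16 := by
    have h1 := h.ap hq (τ 0)
    unfold Qv at h1
    rw [norm_sub_rev]
    linarith
  have hw1 : ‖a (τ 0) - q‖ ^ 2 ≤ 1 + S (τ 0) := by
    have h1 := v.le (τ 0) q hq
    unfold Qv at h1
    rw [norm_sub_rev]
    linarith
  have hc0 : 0 ≤ c0 := by
    have h1 := v.nn (τ 0)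
    have : 0 ≤ 3 * c1 * (1 + S (τ 0)) := by positivity
    linarith
  obtain ⟨u, v'', fu, fv, hu, huw, hwv, hv2, hfu, hfv, hk⟩ := hw _ (sq_nonneg _) hw1
  have hS := Yt_cw (a := fun i => a (τ i)) (t := t) hgr hC hpq h19
    (V := fun k => S (τ k.succ)) (fun k => v.nn _) (fun k => hSm _) hμ hM
    (v'.le 1 q hq) (v'.le 2 q hq) (v'.le 3 q hq)
  have hT : T3 t 0 + T3 t 1 + T3 t 2 = 1 := by
    show t.1 + t.2 + (1 - t.1 - t.2) = 1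
    ring
  have r1 := mul_le_mul_of_nonneg_left (le_pp (‖a (τ 0) - q‖ ^ 2 - S (τ 1))) (hμ.trans (hM 0))
  have r2 := mul_le_mul_of_nonneg_left (le_pp (‖a (τ 0) - q‖ ^ 2 - S (τ 2))) (hμ.trans (hM 1))
  have r3 := mul_le_mul_of_nonneg_left (le_pp (‖a (τ 0) - q‖ ^ 2 - S (τ 3))) (hμ.trans (hM 2))
  have e2 : (T3 t 0 + T3 t 1 + T3 t 2) * ‖a (τ 0) - q‖ ^ 2 = ‖a (τ 0) - q‖ ^ 2 := by
    rw [hT, one_mul]
  have hS' : -(T3 t 0 * S (τ 1) + T3 t 1 * S (τ 2) + T3 t 2 * S (τ 3)) + ‖a (τ 0) - q‖ ^ 2 +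
      2 * μ * ((c0 - c1 * ‖a (τ 0) - q‖ ^ 2) * √(‖a (τ 0) - q‖ ^ 2)) ≤
        Yt (fun i => a (τ i)) t q := by
    refine le_trans ?_ hS
    show _ ≤ (T3 t 0 * pp (‖a (τ 0) - q‖ ^ 2 - S (τ 1)) +
      T3 t 1 * pp (‖a (τ 0) - q‖ ^ 2 - S (τ 2)) + T3 t 2 * pp (‖a (τ 0) - q‖ ^ 2 - S (τ 3))) +
      2 * μ * ((c0 - c1 * ‖a (τ 0) - q‖ ^ 2) * √(‖a (τ 0) - q‖ ^ 2))
    nlinarith
  have hG' : G t + (1 - D1) * ‖a (τ 0) - q‖ ^ 2 ≤ Yt (fun i => a (τ i)) t q := by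
    have := mul_le_mul_of_nonneg_right (sub_le_sub_left hD 1) (sq_nonneg ‖a (τ 0) - q‖)
    linarith
  refine r7_int2 hA hm hm1 hμ hc0 hc1 hu huw hwv hv2 hG' hS' hX hE hfu hfv ?_
  rcases hk with hk | hk | hk
  · exact Or.inl hk
  · exact Or.inr (Or.inl hk)
  · refine Or.inr (Or.inr ⟨?_, hk⟩)
    have := mul_le_mul_of_nonneg_left hw1 (show 0 ≤ 3 * c1 by linarith)
    linarith

end Helper92.MEI
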