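import Pool.Agent.Helper92.MEI.R7a

/-!
# Project MEI (M2): rule R7 with end point checks, load by end values

The load `G + w - (chord of du, dv) ≤ Y` is given by the two end values `du, dv` of the deficit
(`Helper93.MEI.load_end` produces them, also for the certificate with clipped nodes).
-/

set_option autoImplicit false

namespace Helper92.MEI

open Helper78.MEI Helper93.MEI

/-- one end point, LOAD, with the loss `x` of the certificate -/
def Ed (A x n w s om : ℝ) : Prop :=
  A * x * (1 - w / 2) + 0.127 * w + A * n * (w / 2) + s ≤ om * (1 - w / 2)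

/-- STRIPS, pointwise -/
theorem r7_str {A m G C E w u v Y fu fv μ c0 c1 om : ℝ} (hA : 0 ≤ A) (hm : 0 < m)
    (hμ : 0 ≤ μ) (hc0 : 0 ≤ c0) (hc1 : 0 ≤ c1) (hu : 0 ≤ u) (huw : u ≤ w)
    (hwv : w ≤ v) (hv : v < 2)
    (hS : -C + w + 2 * μ * ((c0 - c1 * w) * √w) ≤ Y)
    (hE : G ≤ -C + E) (hfu : fu ≤ phs m μ c0 c1 u) (hfv : fv ≤ phs m μ c0 c1 v)
    (ku : Eii A m C E fu u om) (kv : Eii A m C E fv v om) :
    A * (G / m) - om ≤ ff A (Y / m - w) w := by
  have hw0 : 0 ≤ w := hu.trans huw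
  have hv0 : 0 ≤ v := hw0.trans hwv
  -- the strip bound of `X` at `w`
  have hXs : (phs m μ c0 c1 w - C) / m ≤ Y / m - w := by
    have e : Y / m - w = (Y - m * w) / m := by field_simp
    rw [e]
    apply div_le_div_of_nonneg_right _ hm.le
    unfold phs
    linarith
  have hch := phs_chord (m := m) hμ hu huw hwv hc0 hc1
  have hfch : (v - w) * fu + (w - u) * fv ≤ (v - u) * phs m μ c0 c1 w := by
    have k1 := mul_le_mul_of_nonneg_left hfu (show 0 ≤ v - w by linarith)
    have k2 := mul_le_mul_of_nonneg_left hfv (show 0 ≤ w - u by linarith)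
    linarith
  have hXch : (v - w) * ((fu - C) / m) + (w - u) * ((fv - C) / m) ≤
      (v - u) * (Y / m - w) := by
    have k1 := mul_le_mul_of_nonneg_left hXs (show 0 ≤ v - u by linarith)
    have e : (v - w) * ((fu - C) / m) + (w - u) * ((fv - C) / m) =
        ((v - w) * fu + (w - u) * fv - (v - u) * C) / m := by
      field_simp
      ring
    have e2 : (v - u) * ((phs m μ c0 c1 w - C) / m) =
        ((v - u) * phs m μ c0 c1 w - (v - u) * C) / m := by
      field_simp
    rw [e2] at k1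
    rw [e]
    refine le_trans (div_le_div_of_nonneg_right ?_ hm.le) k1
    linarith
  unfold Eii at ku kv
  refine ff_conc (X1 := (fu - C) / m) (X2 := (fv - C) / m) hA huw hwv hv ?_ ?_ ?_ ?_
  · linarith
  · intro e
    refine le_trans ?_ hXs
    apply div_le_div_of_nonneg_right _ hm.le
    rw [e]
    linarith
  · refine ff_of_num hA hu (by linarith) (n := pp ((C - fu) / m)) ?_ (pp_nonneg _) ?_
    · have := le_pp ((C - fu) / m)
      have e : (fu - C) / m = -((C - fu) / m) := by ring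
      rw [e]
      linarith
    · have k1 : G / m ≤ (-C + E) / m := div_le_div_of_nonneg_right hE hm.le
      have e : (-C + E) / m = (fu - C) / m + (E - fu) / m := by ring
      rw [e] at k1
      have du : 0 < 1 - u / 2 := by linarith
      have k2 := mul_le_mul_of_nonneg_right (mul_le_mul_of_nonneg_left k1 hA) du.le
      linarith
  · refine ff_of_num hA hv0 hv (n := pp ((C - fv) / m)) ?_ (pp_nonneg _) ?_
    · have := le_pp ((C - fv) / m)
      have e : (fv - C) / m = -((C - fv) / m) := by ring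
      rw [e]
      linarith
    · have k1 : G / m ≤ (-C + E) / m := div_le_div_of_nonneg_right hE hm.le
      have e : (-C + E) / m = (fv - C) / m + (E - fv) / m := by ring
      rw [e] at k1
      have dv : 0 < 1 - v / 2 := by linarith
      have k2 := mul_le_mul_of_nonneg_right (mul_le_mul_of_nonneg_left k1 hA) dv.le
      linarith

/-- OUT, pointwise -/
theorem r7_out {m C ow w u Y fu μ c0 c1 : ℝ} (hm : 0 < m)
    (hm1 : m ≤ 1) (hμ : 0 ≤ μ) (hc1 : 0 ≤ c1) (hu : 0 ≤ u) (huw : u ≤ w)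
    (hS : -C + w + 2 * μ * ((c0 - c1 * w) * √w) ≤ Y) (hO : Y / m - w ≤ ow)
    (hfu : fu ≤ phs m μ c0 c1 u) (hc : 3 * c1 * w ≤ c0) (hk : C + m * ow < fu) : False := by
  have hXs : (phs m μ c0 c1 w - C) / m ≤ Y / m - w := by
    have e : Y / m - w = (Y - m * w) / m := by field_simp
    rw [e]
    apply div_le_div_of_nonneg_right _ hm.le
    unfold phs
    linarith
  have k0 := phs_mono (m := m) hm1 hμ hc1 hu huw hc
  have k1 : (phs m μ c0 c1 w - C) / m ≤ ow := hXs.trans hO
  rw [div_le_iff₀ hm] at k1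
  linarith

/-- **rule R7, pointwise, end point form, load by end values** -/
theorem r7_int3 {A m G C E ow w u v Y fu fv du dv μ c0 c1 om : ℝ} (hA : 0 ≤ A) (hm : 0 < m)
    (hm1 : m ≤ 1) (hμ : 0 ≤ μ) (hc0 : 0 ≤ c0) (hc1 : 0 ≤ c1) (hu : 0 ≤ u) (huw : u ≤ w)
    (hwv : w ≤ v) (huv : u < v) (hv : v < 2)
    (hL : G + w - ((v - w) * du + (w - u) * dv) / (v - u) ≤ Y)
    (hS : -C + w + 2 * μ * ((c0 - c1 * w) * √w) ≤ Y) (hO : Y / m - w ≤ ow)
    (hE : G ≤ -C + E) (hfu : fu ≤ phs m μ c0 c1 u) (hfv : fv ≤ phs m μ c0 c1 v)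
    (hk : (∃ s, 0 ≤ s ∧
          A * (((v - (v - dv) / m) - (u - (u - du) / m)) +
            (pp ((C - fu) / m) - pp ((C - fv) / m))) * (v - u) / 8 ≤ s ∧
          Ed A (u - (u - du) / m) (pp ((C - fu) / m)) u s om ∧
          Ed A (v - (v - dv) / m) (pp ((C - fv) / m)) v s om) ∨
        (Eii A m C E fu u om ∧ Eii A m C E fv v om) ∨
        (3 * c1 * w ≤ c0 ∧ C + m * ow < fu)) :
    A * (G / m) - om ≤ ff A (Y / m - w) w := by
  rcases hk with ⟨s, hs0, hs, ku, kv⟩ | hk | hk
  · have hw0 : 0 ≤ w := hu.trans huw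
    have hv0 : 0 ≤ v := hw0.trans hwv
    have d : 0 < 1 - w / 2 := by linarith
    have hl : 0 < v - u := by linarith
    -- the strip bound of `X` at `w`
    have hXs : (phs m μ c0 c1 w - C) / m ≤ Y / m - w := by
      have e : Y / m - w = (Y - m * w) / m := by field_simp
      rw [e]
      apply div_le_div_of_nonneg_right _ hm.le
      unfold phs
      linarith
    have hch := phs_chord (m := m) hμ hu huw hwv hc0 hc1
    have hfch : (v - w) * fu + (w - u) * fv ≤ (v - u) * phs m μ c0 c1 w := by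
      have k1 := mul_le_mul_of_nonneg_left hfu (show 0 ≤ v - w by linarith)
      have k2 := mul_le_mul_of_nonneg_left hfv (show 0 ≤ w - u by linarith)
      linarith
    have hXch : (v - w) * ((fu - C) / m) + (w - u) * ((fv - C) / m) ≤
        (v - u) * (Y / m - w) := by
      have k1 := mul_le_mul_of_nonneg_left hXs (show 0 ≤ v - u by linarith)
      have e : (v - w) * ((fu - C) / m) + (w - u) * ((fv - C) / m) =
          ((v - w) * fu + (w - u) * fv - (v - u) * C) / m := by
        field_simp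
        ring
      have e2 : (v - u) * ((phs m μ c0 c1 w - C) / m) =
          ((v - u) * phs m μ c0 c1 w - (v - u) * C) / m := by
        field_simp
      rw [e2] at k1
      rw [e]
      refine le_trans (div_le_div_of_nonneg_right ?_ hm.le) k1
      linarith
    obtain ⟨xu, hxu⟩ : ∃ c, c = u - (u - du) / m := ⟨_, rfl⟩
    obtain ⟨xv, hxv⟩ : ∃ c, c = v - (v - dv) / m := ⟨_, rfl⟩
    obtain ⟨nu, hnu⟩ : ∃ n, n = pp ((C - fu) / m) := ⟨_, rfl⟩
    obtain ⟨nv, hnv⟩ : ∃ n, n = pp ((C - fv) / m) := ⟨_, rfl⟩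
    rw [← hxu, ← hxv, ← hnu, ← hnv] at hs
    rw [← hxu, ← hnu] at ku
    rw [← hxv, ← hnv] at kv
    have hnu0 : 0 ≤ nu := by rw [hnu]; exact pp_nonneg _
    have hnv0 : 0 ≤ nv := by rw [hnv]; exact pp_nonneg _
    have hnu1 : -nu ≤ (fu - C) / m := by
      have := le_pp ((C - fu) / m)
      have e : (fu - C) / m = -((C - fu) / m) := by ring
      rw [hnu, e]
      linarith
    have hnv1 : -nv ≤ (fv - C) / m := by
      have := le_pp ((C - fv) / m)
      have e : (fv - C) / m = -((C - fv) / m) := by ring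
      rw [hnv, e]
      linarith
    obtain ⟨q, hq⟩ : ∃ q, q = (nv - nu) / (v - u) := ⟨_, rfl⟩
    have hqm : q * (v - u) = nv - nu := by rw [hq, div_mul_cancel₀ _ hl.ne']
    obtain ⟨q2, hq2⟩ : ∃ q, q = (xv - xu) / (v - u) := ⟨_, rfl⟩
    have hq2m : q2 * (v - u) = xv - xu := by rw [hq2, div_mul_cancel₀ _ hl.ne']
    -- the load at `w`
    have hX2 : G / m - (xu + q2 * (w - u)) ≤ Y / m - w := by
      have e : G / m - (xu + q2 * (w - u)) =
          (G + w - ((v - w) * du + (w - u) * dv) / (v - u)) / m - w := by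
        rw [hq2, hxu, hxv]
        have hl' : v - u ≠ 0 := hl.ne'
        field_simp
        ring
      rw [e]
      have := div_le_div_of_nonneg_right hL hm.le
      linarith
    unfold Ed at ku kv
    have hn0 : 0 ≤ nu + q * (w - u) := by
      have e : (v - u) * (nu + q * (w - u)) = (v - w) * nu + (w - u) * nv := by
        linear_combination (w - u) * hqm
      have k1 : 0 ≤ (v - u) * (nu + q * (w - u)) := by
        rw [e]
        exact add_nonneg (mul_nonneg (by linarith) hnu0) (mul_nonneg (by linarith) hnv0)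
      by_contra hneg
      have := mul_neg_of_pos_of_neg hl (not_le.1 hneg)
      linarith
    have hnX : -(nu + q * (w - u)) ≤ Y / m - w := by
      have k1 := mul_le_mul_of_nonneg_left hnu1 (show 0 ≤ v - w by linarith)
      have k2 := mul_le_mul_of_nonneg_left hnv1 (show 0 ≤ w - u by linarith)
      have e : (v - u) * -(nu + q * (w - u)) = (v - w) * -nu + (w - u) * -nv := by
        linear_combination (-(w - u)) * hqm
      have k3 : (v - u) * -(nu + q * (w - u)) ≤ (v - u) * (Y / m - w) := by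
        rw [e]
        refine le_trans ?_ hXch
        linarith
      exact le_of_mul_le_mul_left k3 hl
    refine ff_of_num hA hw0 (by linarith) hnX hn0 ?_
    have k1 : A * (G / m - (xu + q2 * (w - u))) ≤ A * (Y / m - w) :=
      mul_le_mul_of_nonneg_left hX2 hA
    have k2 := mul_le_mul_of_nonneg_right k1 d.le
    have env : nv = nu + q * (v - u) := by linarith
    have exv : xv = xu + q2 * (v - u) := by linarith
    -- the quadratic `A x(w) (1 - w/2) + .127 w + A n(w) w/2`
    have key := quad_chord (a := -(A * q2) / 2 + A * q / 2)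
      (b := A * q2 - A * (xu - q2 * u) / 2 + 0.127 + A * (nu - q * u) / 2 + om / 2)
      (c := A * (xu - q2 * u)) (B := om)
      (s := s) huw hwv hs0
      (by
        refine le_trans (le_of_eq ?_) hs
        linear_combination (A * (v - u) / 8) * hq2m - (A * (v - u) / 8) * hqm)
      (by linarith [ku])
      (by
        rw [env, exv] at kv
        linarith [kv])
    linarith [key, k2]
  · exact r7_str hA hm hμ hc0 hc1 hu huw hwv hv hS hE hfu hfv hk.1 hk.2
  · exact (r7_out hm hm1 hμ hc1 hu huw hS hO hfu hk.1 hk.2).elim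

/-! ### numbers for a cell of directions -/

theorem x_num {m w d m1 : ℝ} (hm0 : 0 < m) (hm1 : m ≤ m1) (hd : d ≤ w) :
    w - (w - d) / m ≤ w - (w - d) / m1 := by
  have k1 : (w - d) / m1 ≤ (w - d) / m :=
    div_le_div_of_nonneg_left (by linarith) hm0 hm1
  linarith

/-- the second order term, numbers -/
theorem sg_num3 {A m C fu fv u v du dv m0 m1 C1 s : ℝ} (hA : 0 ≤ A) (huv : u ≤ v)
    (hm0 : 0 < m0) (hm : m0 ≤ m) (hm1 : m ≤ m1) (hC : C ≤ C1) (hd : dv - du ≤ v - u)
    (hs : A * (((v - u) - ((v - u) - (dv - du)) / m1) +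
      min (pp (C1 - fu) / m0) (pp (fv - fu) / m0)) * (v - u) / 8 ≤ s) :
    A * (((v - (v - dv) / m) - (u - (u - du) / m)) +
      (pp ((C - fu) / m) - pp ((C - fv) / m))) * (v - u) / 8 ≤ s := by
  have hd0 : 0 ≤ v - u := by linarith
  have hmp := hm0.trans_le hm
  have k1 : pp ((C - fu) / m) - pp ((C - fv) / m) ≤ pp (C1 - fu) / m0 := by
    have h1 := pp_num (f := fu) hm0 hm hC
    have h2 := pp_nonneg ((C - fv) / m)
    linarith
  have k2 : pp ((C - fu) / m) - pp ((C - fv) / m) ≤ pp (fv - fu) / m0 := by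
    refine pp_lip ?_ (div_nonneg (pp_nonneg _) hm0.le)
    have e : (C - fu) / m - (C - fv) / m = (fv - fu) / m := by ring
    rw [e]
    calc (fv - fu) / m ≤ pp (fv - fu) / m := div_le_div_of_nonneg_right (le_pp _) hmp.le
      _ ≤ pp (fv - fu) / m0 := div_le_div_of_nonneg_left (pp_nonneg _) hm0 hm
  have k3 : (v - (v - dv) / m) - (u - (u - du) / m) ≤
      (v - u) - ((v - u) - (dv - du)) / m1 := by
    have e : (v - (v - dv) / m) - (u - (u - du) / m) =
        (v - u) - ((v - u) - (dv - du)) / m := by ring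
    rw [e]
    have := x_num (m := m) hmp hm1 hd
    exact this
  have k4 := add_le_add k3 (le_min k1 k2)
  have k5 := mul_le_mul_of_nonneg_right (mul_le_mul_of_nonneg_left k4 hA) hd0
  linarith

theorem Ed_num {A x n w s om X N : ℝ} (hA : 0 ≤ A) (hw0 : 0 ≤ w) (hw : w < 2)
    (hx : x ≤ X) (hn : n ≤ N) (hk : Ed A X N w s om) : Ed A x n w s om := by
  have d : 0 ≤ 1 - w / 2 := by linarith
  have k1 := mul_le_mul_of_nonneg_right (mul_le_mul_of_nonneg_left hx hA) d
  have k2 := mul_le_mul_of_nonneg_right (mul_le_mul_of_nonneg_left hn hA)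
    (show 0 ≤ w / 2 by linarith)
  unfold Ed at hk ⊢
  linarith

/-- **all numbers of one interval of a cell**, load by end values -/
def Rd (A m0 m1 C1 E1 o1 fu fv du dv u v om : ℝ) : Prop :=
  (du ≤ u ∧ dv ≤ v ∧ dv - du ≤ v - u ∧ ∃ s, 0 ≤ s ∧
      A * (((v - u) - ((v - u) - (dv - du)) / m1) +
        min (pp (C1 - fu) / m0) (pp (fv - fu) / m0)) * (v - u) / 8 ≤ s ∧
      Ed A (u - (u - du) / m1) (pp (C1 - fu) / m0) u s om ∧
      Ed A (v - (v - dv) / m1) (pp (C1 - fv) / m0) v s om) ∨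
    ((0.127 * u + A * (pp (C1 - fu) / m0) * (u / 2) + A * (pp (E1 - fu) / m0) * (1 - u / 2) ≤
      om * (1 - u / 2)) ∧
     (0.127 * v + A * (pp (C1 - fv) / m0) * (v / 2) + A * (pp (E1 - fv) / m0) * (1 - v / 2) ≤
      om * (1 - v / 2))) ∨
    C1 + m1 * o1 < fu

/-- **rule R7b for a cell**, one interval, load by end values -/
theorem r7d_cell {A m G C E ow w u v Y fu fv du dv μ c0 c1 om m0 m1 C1 E1 o1 : ℝ} (hA : 0 ≤ A)
    (hm0 : 0 < m0) (hm : m0 ≤ m) (hm1 : m ≤ m1) (h1 : m ≤ 1)
    (hC : C ≤ C1) (hE : E ≤ E1) (ho : ow ≤ o1) (ho0 : 0 ≤ o1)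
    (hμ : 0 ≤ μ) (hc0 : 0 ≤ c0) (hc1 : 0 ≤ c1) (hu : 0 ≤ u) (huw : u ≤ w)
    (hwv : w ≤ v) (huv : u < v) (hv : v < 2) (hc3 : 3 * c1 * w ≤ c0)
    (hL : G + w - ((v - w) * du + (w - u) * dv) / (v - u) ≤ Y)
    (hS : -C + w + 2 * μ * ((c0 - c1 * w) * √w) ≤ Y) (hO : Y / m - w ≤ ow)
    (hG : G ≤ -C + E) (hfu : fu ≤ phs m μ c0 c1 u) (hfv : fv ≤ phs m μ c0 c1 v)
    (hk : Rd A m0 m1 C1 E1 o1 fu fv du dv u v om) :
    A * (G / m) - om ≤ ff A (Y / m - w) w := by
  have hmp := hm0.trans_le hm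
  have hw0 : 0 ≤ w := hu.trans huw
  refine r7_int3 hA hmp h1 hμ hc0 hc1 hu huw hwv huv hv hL hS hO hG hfu hfv ?_ (E := E)
  rcases hk with ⟨d1, d2, d3, s, hs0, hs, k1, k2⟩ | ⟨k1, k2⟩ | hk
  · left
    exact ⟨s, hs0, sg_num3 hA huv.le hm0 hm hm1 hC d3 hs,
      Ed_num hA hu (by linarith) (x_num hmp hm1 d1) (pp_num hm0 hm hC) k1,
      Ed_num hA (hw0.trans hwv) hv (x_num hmp hm1 d2) (pp_num hm0 hm hC) k2⟩
  · right; left
    exact ⟨Eii_num hA hm0 hm hC hE hu (by linarith) k1,
      Eii_num hA hm0 hm hC hE (hw0.trans hwv) hv k2⟩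
  · right; right
    exact ⟨hc3, Eiii_num hmp.le hm1 hC ho ho0 hk⟩

end Helper92.MEI
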