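import Pool.Agent.Helper92.MEI.R7b
import Pool.Agent.Helper92.MEI.R7d
import Pool.Agent.Helper93.MEI.F2c

/-!
# Project MEI (M2): rule R7 as a cost, end point form, with a second load

`wcost_R7d`: the same as `wcost_R7b`; the load is a second certificate valid on the body,
`G t + (1 - D2 t) w - P t wx V w ≤ Yt` (`Helper93.MEI.inst_F2`), used through its end values.
-/

set_option autoImplicit false

namespace Helper92.MEI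

open Set Metric MeasureTheory Helper80.CW Helper82.CW Helper14.CW Helper93.MEI Helper82.M2
open Helper14.MEI2 Pool.Agent.Helper52.MEI Pool.Agent.Helper73.MEI Pool.Agent.Helper31.SR
open Helper78.MEI
open Helper33.MEI (Wi Dl tx M3 mt mt_pos)
open scoped RealInnerProductSpace ENNReal

/-- the three checks at one point, load by end values -/
def R3d (A m C E ow fu fv du dv u v om : ℝ) : Prop :=
  (∃ s, 0 ≤ s ∧
      A * (((v - (v - dv) / m) - (u - (u - du) / m)) +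
        (pp ((C - fu) / m) - pp ((C - fv) / m))) * (v - u) / 8 ≤ s ∧
      Ed A (u - (u - du) / m) (pp ((C - fu) / m)) u s om ∧
      Ed A (v - (v - dv) / m) (pp ((C - fv) / m)) v s om) ∨
    (Eii A m C E fu u om ∧ Eii A m C E fv v om) ∨ C + m * ow < fu

/-- numbers of a cell -/
theorem R3d_num {A m C E ow fu fv du dv u v om m0 m1 C1 E1 o1 : ℝ} (hA : 0 ≤ A)
    (hm0 : 0 < m0) (hm : m0 ≤ m) (hm1 : m ≤ m1) (hC : C ≤ C1) (hE : E ≤ E1) (ho : ow ≤ o1)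
    (ho0 : 0 ≤ o1) (hu : 0 ≤ u) (huv : u < v) (hv : v < 2)
    (hk : Rd A m0 m1 C1 E1 o1 fu fv du dv u v om) : R3d A m C E ow fu fv du dv u v om := by
  have hmp := hm0.trans_le hm
  rcases hk with ⟨d1, d2, d3, s, hs0, hs, k1, k2⟩ | ⟨k1, k2⟩ | hk
  · left
    exact ⟨s, hs0, sg_num3 hA huv.le hm0 hm hm1 hC d3 hs,
      Ed_num hA hu (by linarith) (x_num hmp hm1 d1) (pp_num hm0 hm hC) k1,
      Ed_num hA (by linarith) hv (x_num hmp hm1 d2) (pp_num hm0 hm hC) k2⟩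
  · right; left
    exact ⟨Eii_num hA hm0 hm hC hE hu (by linarith) k1,
      Eii_num hA hm0 hm hC hE (by linarith) hv k2⟩
  · right; right
    exact Eiii_num hmp.le hm1 hC ho ho0 hk

/-- **RULE R7 AS A COST**, end point form, second load -/
theorem wcost_R7d {a : Fin 4 → E3} {σ : Measure (E3 × E3)} {K : Set E3} {S : Fin 4 → ℝ}
    {c : Fin 4 → E3} [IsFiniteMeasure σ] (h : CN K σ a c) (v : Viol K a S)
    (τ : Equiv.Perm (Fin 4)) {A Sm c0 c1 : ℝ} (hA : 0 ≤ A) (hC : IsC Sm c0 c1)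
    (hSm : ∀ k, S k ≤ Sm) (hc1 : 0 ≤ c1) (hc3 : 3 * c1 * (1 + S (τ 0)) ≤ c0)
    {G D D2 P ω : ℝ × ℝ → ℝ} {C2 V : ℝ} (hP : ∀ t ∈ Dl, 0 ≤ P t)
    (hL : ∀ t ∈ Dl, ∀ q ∈ K,
      G t + (1 - D t) * ‖a (τ 0) - q‖ ^ 2 ≤ Yt (fun i => a (τ i)) t q →
      G t + (1 - D2 t) * ‖a (τ 0) - q‖ ^ 2 - P t * wx V (‖a (τ 0) - q‖ ^ 2) ≤
        Yt (fun i => a (τ i)) t q)
    (hω : AEStronglyMeasurable ω (volume.restrict Dl)) (hωC : ∀ t ∈ Dl, |ω t| ≤ C2)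
    (hR : ∀ t ∈ Dl, ∃ E μ : ℝ,
      G t ≤ -(T3 t 0 * S (τ 1) + T3 t 1 * S (τ 2) + T3 t 2 * S (τ 3)) + E ∧
      0 ≤ μ ∧ (∀ k, μ ≤ T3 t k) ∧
      ∀ w, 0 ≤ w → w ≤ 1 + S (τ 0) → ∃ u v' fu fv du dv : ℝ,
        0 ≤ u ∧ u ≤ w ∧ w ≤ v' ∧ u < v' ∧ v' < 2 ∧ (v' ≤ V ∨ V ≤ u) ∧
        D2 t * u + P t * wx V u ≤ du ∧ D2 t * v' + P t * wx V v' ≤ dv ∧
        fu ≤ phs (√(mt t)) μ c0 c1 u ∧ fv ≤ phs (√(mt t)) μ c0 c1 v' ∧
        R3d A (√(mt t)) (T3 t 0 * S (τ 1) + T3 t 1 * S (τ 2) + T3 t 2 * S (τ 3)) E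
          (own (S (τ 0)) t) fu fv du dv u v' (ω t)) :
    WCost a K τ A G D ((√2)⁻¹ * ∫ t in Dl, ω t * M3 t) := by
  have h' := h.perm τ
  have v' := viol_perm v τ
  have hgr := gram_of_dist h'.ha
  refine ⟨ω, own (S (τ 0)), C2, hω, hωC, fun t ht => own_nonneg (v.nn _) ht,
    own_ok h v τ, ?_, le_rfl⟩
  intro t ht q hq hX hG
  have hm : 0 < √(mt t) := Real.sqrt_pos.2 mt_pos
  have hm1 : √(mt t) ≤ 1 := sqrt_mt_le ht
  obtain ⟨E, μ, hE, hμ, hM, hw⟩ := hR t ht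
  have hpq := h'.hp q hq
  have h19 : ‖a (τ 0) - q‖ ^ 2 ≤ 19 / 16 := by
    have h1 := h.ap hq (τ 0)
    unfold Qv at h1
    rw [norm_sub_rev]
    linarith
  have hw1 : ‖a (τ 0) - q‖ ^ 2 ≤ 1 + S (τ 0) := by
    have h1 := v.le (τ 0) q hq
    unfold Qv at h1
    rw [norm_sub_rev]
    linarith
  have hc0 : 0 ≤ c0 := by
    have h1 := v.nn (τ 0)
    have : 0 ≤ 3 * c1 * (1 + S (τ 0)) := by positivity
    linarith
  obtain ⟨u, v'', fu, fv, du, dv, hu, huw, hwv, huv, hv2, hVV, hdu, hdv, hfu, hfv, hk⟩ :=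
    hw _ (sq_nonneg _) hw1
  have hS := Yt_cw (a := fun i => a (τ i)) (t := t) hgr hC hpq h19
    (V := fun k => S (τ k.succ)) (fun k => v.nn _) (fun k => hSm _) hμ hM
    (v'.le 1 q hq) (v'.le 2 q hq) (v'.le 3 q hq)
  have hT : T3 t 0 + T3 t 1 + T3 t 2 = 1 := by
    show t.1 + t.2 + (1 - t.1 - t.2) = 1
    ring
  have r1 := mul_le_mul_of_nonneg_left (le_pp (‖a (τ 0) - q‖ ^ 2 - S (τ 1))) (hμ.trans (hM 0))
  have r2 := mul_le_mul_of_nonneg_left (le_pp (‖a (τ 0) - q‖ ^ 2 - S (τ 2))) (hμ.trans (hM 1))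
  have r3 := mul_le_mul_of_nonneg_left (le_pp (‖a (τ 0) - q‖ ^ 2 - S (τ 3))) (hμ.trans (hM 2))
  have e2 : (T3 t 0 + T3 t 1 + T3 t 2) * ‖a (τ 0) - q‖ ^ 2 = ‖a (τ 0) - q‖ ^ 2 := by
    rw [hT, one_mul]
  have hS' : -(T3 t 0 * S (τ 1) + T3 t 1 * S (τ 2) + T3 t 2 * S (τ 3)) + ‖a (τ 0) - q‖ ^ 2 +
      2 * μ * ((c0 - c1 * ‖a (τ 0) - q‖ ^ 2) * √(‖a (τ 0) - q‖ ^ 2)) ≤
        Yt (fun i => a (τ i)) t q := by
    refine le_trans ?_ hS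
    show _ ≤ (T3 t 0 * pp (‖a (τ 0) - q‖ ^ 2 - S (τ 1)) +
      T3 t 1 * pp (‖a (τ 0) - q‖ ^ 2 - S (τ 2)) + T3 t 2 * pp (‖a (τ 0) - q‖ ^ 2 - S (τ 3))) +
      2 * μ * ((c0 - c1 * ‖a (τ 0) - q‖ ^ 2) * √(‖a (τ 0) - q‖ ^ 2))
    nlinarith
  have hG' := load_end (hP t ht) hu huw hwv huv hVV (hL t ht q hq hG) hdu hdv
  refine r7_int3 hA hm hm1 hμ hc0 hc1 hu huw hwv huv hv2 hG' hS' hX hE hfu hfv ?_
  rcases hk with hk | hk | hk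
  · exact Or.inl hk
  · exact Or.inr (Or.inl hk)
  · refine Or.inr (Or.inr ⟨?_, hk⟩)
    have := mul_le_mul_of_nonneg_left hw1 (show 0 ≤ 3 * c1 by linarith)
    linarith

end Helper92.MEI
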