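import Pool.Agent.Helper92.MEI.R7e

/-!
# Project MEI (M2): rule R7 as a cost, end point form, any list of loads

`wcost_R7g`: for every direction and every `w` an interval and any lower bound of `Yt` on the
sphere `‖a - q‖² = w` of the body in the form of two end values; `load_part`: a load
`G₁ + (1 - D₁) w - P₁ wx V w ≤ Yt` with `G ≤ G₁ + e` (nodes only, apex only, ...);
`load_F`: the bound with a signed remainder `- 2 ρ √w`.
-/

set_option autoImplicit false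

namespace Helper92.MEI

open Set Metric MeasureTheory Helper80.CW Helper82.CW Helper14.CW Helper93.MEI Helper82.M2
open Helper14.MEI2 Pool.Agent.Helper52.MEI Pool.Agent.Helper73.MEI Pool.Agent.Helper31.SR
open Helper78.MEI
open Helper33.MEI (Wi Dl tx M3 mt mt_pos)
open scoped RealInnerProductSpace ENNReal

/-- a part of the certificate as the load of an interval -/
theorem load_part {G G1 D1 P1 e V u v w du dv Y : ℝ} (hP : 0 ≤ P1) (hu : 0 ≤ u) (huw : u ≤ w)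
    (hwv : w ≤ v) (huv : u < v) (hV : v ≤ V ∨ V ≤ u) (h : G1 + (1 - D1) * w - P1 * wx V w ≤ Y)
    (he : G ≤ G1 + e) (hdu : D1 * u + P1 * wx V u + e ≤ du)
    (hdv : D1 * v + P1 * wx V v + e ≤ dv) :
    G + w - ((v - w) * du + (w - u) * dv) / (v - u) ≤ Y := by
  have k := load_end (du := du - e) (dv := dv - e) hP hu huw hwv huv hV h (by linarith)
    (by linarith)
  have hne : v - u ≠ 0 := by
    intro h0
    linarith
  have e1 : ((v - w) * (du - e) + (w - u) * (dv - e)) / (v - u) =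
      ((v - w) * du + (w - u) * dv) / (v - u) - e := by
    field_simp
    ring
  rw [e1] at k
  linarith

/-- the same without a clipped part -/
theorem load_lin {G G1 D1 e u v w du dv Y : ℝ} (huw : u ≤ w)
    (hwv : w ≤ v) (huv : u < v) (h : G1 + (1 - D1) * w ≤ Y)
    (he : G ≤ G1 + e) (hdu : D1 * u + e ≤ du) (hdv : D1 * v + e ≤ dv) :
    G + w - ((v - w) * du + (w - u) * dv) / (v - u) ≤ Y := by
  have d : 0 < v - u := by linarith
  have k3 := mul_le_mul_of_nonneg_left hdu (by linarith : 0 ≤ v - w)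
  have k4 := mul_le_mul_of_nonneg_left hdv (by linarith : 0 ≤ w - u)
  have k6 : D1 * w + e ≤ ((v - w) * du + (w - u) * dv) / (v - u) := by
    rw [le_div_iff₀ d]
    linarith
  linarith

/-- `2 √w ≤ ε + w / ε` -/
theorem two_sqrt_le {w ε : ℝ} (hw : 0 ≤ w) (he : 0 < ε) : 2 * √w ≤ ε + w / ε := by
  have h : 0 ≤ (ε - √w) ^ 2 / ε := div_nonneg (sq_nonneg _) he.le
  have e : (ε - √w) ^ 2 / ε = ε - 2 * √w + w / ε := by
    have h1 : √w * √w = w := Real.mul_self_sqrt hw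
    field_simp
    nlinarith
  rw [e] at h
  linarith

/-- a bound with a signed remainder as the load of an interval: `ε` is any positive number -/
theorem load_F {G G1 D1 ρ e ε u v w du dv Y : ℝ} (hw : 0 ≤ w) (huw : u ≤ w)
    (hwv : w ≤ v) (huv : u < v) (hρ : 0 ≤ ρ) (hε : 0 < ε)
    (h : G1 + (1 - D1) * w - 2 * ρ * √w ≤ Y)
    (he : G ≤ G1 + e) (hdu : D1 * u + ρ * (ε + u / ε) + e ≤ du)
    (hdv : D1 * v + ρ * (ε + v / ε) + e ≤ dv) :
    G + w - ((v - w) * du + (w - u) * dv) / (v - u) ≤ Y := by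
  have k := mul_le_mul_of_nonneg_left (two_sqrt_le hw hε) hρ
  refine load_lin (G1 := G1 - ρ * ε) (D1 := D1 + ρ / ε) (e := e + ρ * ε) huw hwv huv ?_ ?_ ?_ ?_
  · have e1 : G1 - ρ * ε + (1 - (D1 + ρ / ε)) * w = G1 + (1 - D1) * w - ρ * (ε + w / ε) := by
      ring
    rw [e1]
    linarith
  · linarith
  · refine le_trans (le_of_eq ?_) hdu
    ring
  · refine le_trans (le_of_eq ?_) hdv
    ring

/-- **RULE R7 AS A COST**, end point form, any loads -/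
theorem wcost_R7g {a : Fin 4 → E3} {σ : Measure (E3 × E3)} {K : Set E3} {S : Fin 4 → ℝ}
    {c : Fin 4 → E3} [IsFiniteMeasure σ] (h : CN K σ a c) (v : Viol K a S)
    (τ : Equiv.Perm (Fin 4)) {A Sm c0 c1 : ℝ} (hA : 0 ≤ A) (hC : IsC Sm c0 c1)
    (hSm : ∀ k, S k ≤ Sm) (hc1 : 0 ≤ c1) (hc3 : 3 * c1 * (1 + S (τ 0)) ≤ c0)
    {G D ω : ℝ × ℝ → ℝ} {C2 : ℝ}
    (hω : AEStronglyMeasurable ω (volume.restrict Dl)) (hωC : ∀ t ∈ Dl, |ω t| ≤ C2)
    (hR : ∀ t ∈ Dl, ∃ E μ : ℝ,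
      G t ≤ -(T3 t 0 * S (τ 1) + T3 t 1 * S (τ 2) + T3 t 2 * S (τ 3)) + E ∧
      0 ≤ μ ∧ (∀ k, μ ≤ T3 t k) ∧
      ∀ w, 0 ≤ w → w ≤ 1 + S (τ 0) → ∃ u v' fu fv du dv : ℝ,
        0 ≤ u ∧ u ≤ w ∧ w ≤ v' ∧ u < v' ∧ v' < 2 ∧
        (∀ q ∈ K, ‖a (τ 0) - q‖ ^ 2 = w →
          G t + (1 - D t) * w ≤ Yt (fun i => a (τ i)) t q →
          G t + w - ((v' - w) * du + (w - u) * dv) / (v' - u) ≤ Yt (fun i => a (τ i)) t q) ∧
        fu ≤ phs (√(mt t)) μ c0 c1 u ∧ fv ≤ phs (√(mt t)) μ c0 c1 v' ∧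
        R3d A (√(mt t)) (T3 t 0 * S (τ 1) + T3 t 1 * S (τ 2) + T3 t 2 * S (τ 3)) E
          (own (S (τ 0)) t) fu fv du dv u v' (ω t)) :
    WCost a K τ A G D ((√2)⁻¹ * ∫ t in Dl, ω t * M3 t) := by
  have h' := h.perm τ
  have v' := viol_perm v τ
  have hgr := gram_of_dist h'.ha
  refine ⟨ω, own (S (τ 0)), C2, hω, hωC, fun t ht => own_nonneg (v.nn _) ht,
    own_ok h v τ, ?_, le_rfl⟩
  intro t ht q hq hX hG
  have hm : 0 < √(mt t) := Real.sqrt_pos.2 mt_pos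
  have hm1 : √(mt t) ≤ 1 := sqrt_mt_le ht
  obtain ⟨E, μ, hE, hμ, hM, hw⟩ := hR t ht
  have hpq := h'.hp q hq
  have h19 : ‖a (τ 0) - q‖ ^ 2 ≤ 19 / 16 := by
    have h1 := h.ap hq (τ 0)
    unfold Qv at h1
    rw [norm_sub_rev]
    linarith
  have hw1 : ‖a (τ 0) - q‖ ^ 2 ≤ 1 + S (τ 0) := by
    have h1 := v.le (τ 0) q hq
    unfold Qv at h1
    rw [norm_sub_rev]
    linarith
  have hc0 : 0 ≤ c0 := by
    have h1 := v.nn (τ 0)
    have : 0 ≤ 3 * c1 * (1 + S (τ 0)) := by positivity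
    linarith
  obtain ⟨u, v'', fu, fv, du, dv, hu, huw, hwv, huv, hv2, hld, hfu, hfv, hk⟩ :=
    hw _ (sq_nonneg _) hw1
  have hS := Yt_cw (a := fun i => a (τ i)) (t := t) hgr hC hpq h19
    (V := fun k => S (τ k.succ)) (fun k => v.nn _) (fun k => hSm _) hμ hM
    (v'.le 1 q hq) (v'.le 2 q hq) (v'.le 3 q hq)
  have hT : T3 t 0 + T3 t 1 + T3 t 2 = 1 := by
    show t.1 + t.2 + (1 - t.1 - t.2) = 1
    ring
  have r1 := mul_le_mul_of_nonneg_left (le_pp (‖a (τ 0) - q‖ ^ 2 - S (τ 1))) (hμ.trans (hM 0))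
  have r2 := mul_le_mul_of_nonneg_left (le_pp (‖a (τ 0) - q‖ ^ 2 - S (τ 2))) (hμ.trans (hM 1))
  have r3 := mul_le_mul_of_nonneg_left (le_pp (‖a (τ 0) - q‖ ^ 2 - S (τ 3))) (hμ.trans (hM 2))
  have e2 : (T3 t 0 + T3 t 1 + T3 t 2) * ‖a (τ 0) - q‖ ^ 2 = ‖a (τ 0) - q‖ ^ 2 := by
    rw [hT, one_mul]
  have hS' : -(T3 t 0 * S (τ 1) + T3 t 1 * S (τ 2) + T3 t 2 * S (τ 3)) + ‖a (τ 0) - q‖ ^ 2 +
      2 * μ * ((c0 - c1 * ‖a (τ 0) - q‖ ^ 2) * √(‖a (τ 0) - q‖ ^ 2)) ≤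
        Yt (fun i => a (τ i)) t q := by
    refine le_trans ?_ hS
    show _ ≤ (T3 t 0 * pp (‖a (τ 0) - q‖ ^ 2 - S (τ 1)) +
      T3 t 1 * pp (‖a (τ 0) - q‖ ^ 2 - S (τ 2)) + T3 t 2 * pp (‖a (τ 0) - q‖ ^ 2 - S (τ 3))) +
      2 * μ * ((c0 - c1 * ‖a (τ 0) - q‖ ^ 2) * √(‖a (τ 0) - q‖ ^ 2))
    nlinarith
  have hG' := hld q hq rfl hG
  refine r7_int3 hA hm hm1 hμ hc0 hc1 hu huw hwv huv hv2 hG' hS' hX hE hfu hfv ?_
  rcases hk with hk | hk | hk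
  · exact Or.inl hk
  · exact Or.inr (Or.inl hk)
  · refine Or.inr (Or.inr ⟨?_, hk⟩)
    have := mul_le_mul_of_nonneg_left hw1 (show 0 ≤ 3 * c1 by linarith)
    linarith

end Helper92.MEI
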